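import Pool.Agent.AM21.Complete

/-!
# Codes of terms, names of numbers
-/

set_option autoImplicit false

namespace AM21

open BK21 Lt

/-- Digit of an exponential. -/
def dg : Bool → ℕ
  | false => 3
  | true => 4

/-- Code of a term: the word in Polish notation, as digits in base eight. -/
def Lt.code : Lt → ℕ
  | Z => 1
  | S t => 2 + 8 * t.code
  | A b u t => dg b + 8 * (u.code + 8 ^ u.sz * t.code)

/-- Concatenation, adds the values. -/
def cat : Lt → Lt → Lt
  | Z, t' => t'
  | S t, t' => S (cat t t')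
  | A b u t, t' => A b u (cat t t')

theorem val_cat (t t' : Lt) : (cat t t').val = t.val + t'.val := by
  induction t with
  | Z => simp [cat, val]
  | S t ih => simp only [cat, val, ih]; ring
  | A b u t _ ih => simp only [cat, val, ih]; ring

theorem sz_cat (t t' : Lt) : (cat t t').sz + 1 = t.sz + t'.sz := by
  induction t with
  | Z => simp only [cat, sz]; ring
  | S t ih => simp only [cat, sz]; omega
  | A b u t _ ih => simp only [cat, sz]; omega

theorem code_pos (t : Lt) : 1 ≤ t.code := by
  cases t with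
  | Z => exact le_rfl
  | S t => simp only [code]; omega
  | A b u t => cases b <;> simp only [code, dg] <;> omega

theorem shiftS (t : Lt) (X : ℕ) :
    (S t).code + 8 ^ (S t).sz * X = 2 + 8 * (t.code + 8 ^ t.sz * X) := by
  simp only [code, sz, pow_succ]
  ring

theorem shiftA (b : Bool) (u t : Lt) (X : ℕ) : (A b u t).code + 8 ^ (A b u t).sz * X =
    dg b + 8 * (u.code + 8 ^ u.sz * (t.code + 8 ^ t.sz * X)) := by
  simp only [code, sz, pow_succ, pow_add]
  ring

theorem shiftZ (X : ℕ) : Z.code + 8 ^ Z.sz * X = 1 + 8 * X := by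
  simp [code, sz]

theorem code_pref (u : Lt) : ∀ (u' : Lt) (X X' : ℕ),
    u.code + 8 ^ u.sz * X = u'.code + 8 ^ u'.sz * X' → u = u' ∧ X = X' := by
  induction u with
  | Z =>
    intro u' X X' h
    cases u' with
    | Z =>
      rw [shiftZ, shiftZ] at h
      exact ⟨rfl, by omega⟩
    | S t' =>
      rw [shiftZ, shiftS] at h
      omega
    | A b' u' t' =>
      rw [shiftZ, shiftA] at h
      cases b' <;> simp only [dg] at h <;> omega
  | S t ih =>
    intro u' X X' h
    cases u' with
    | Z =>
      rw [shiftZ, shiftS] at h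
      omega
    | S t' =>
      rw [shiftS, shiftS] at h
      obtain ⟨h1, h2⟩ := ih t' X X' (by omega)
      exact ⟨by rw [h1], h2⟩
    | A b' u' t' =>
      rw [shiftS, shiftA] at h
      cases b' <;> simp only [dg] at h <;> omega
  | A b u t ihu iht =>
    intro u' X X' h
    cases u' with
    | Z =>
      rw [shiftZ, shiftA] at h
      cases b <;> simp only [dg] at h <;> omega
    | S t' =>
      rw [shiftS, shiftA] at h
      cases b <;> simp only [dg] at h <;> omega
    | A b' u' t' =>
      rw [shiftA, shiftA] at h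
      have hb : b = b' := by
        cases b <;> cases b' <;> first | rfl | (simp only [dg] at h; omega)
      subst hb
      have h0 : u.code + 8 ^ u.sz * (t.code + 8 ^ t.sz * X) =
          u'.code + 8 ^ u'.sz * (t'.code + 8 ^ t'.sz * X') := by omega
      obtain ⟨h1, h2⟩ := ihu u' _ _ h0
      obtain ⟨h3, h4⟩ := iht t' _ _ h2
      exact ⟨by rw [h1, h3], h4⟩

theorem code_inj {t t' : Lt} (h : t.code = t'.code) : t = t' :=
  (code_pref t t' 0 0 (by rw [h]; simp)).1

theorem code_bounds (t : Lt) : 8 ^ t.sz ≤ 8 * t.code ∧ t.code < 8 ^ t.sz := by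
  induction t with
  | Z => simp [code, sz]
  | S t ih =>
    simp only [code, sz, pow_succ]
    omega
  | A b u t ihu iht =>
    obtain ⟨h1, h2⟩ := ihu
    obtain ⟨h3, h4⟩ := iht
    simp only [code, sz]
    have e : 8 ^ (u.sz + t.sz + 1) = 8 * (8 ^ u.sz * 8 ^ t.sz) := by
      rw [pow_succ, pow_add]
      ring
    rw [e]
    have h5 : 8 ^ u.sz * 8 ^ t.sz ≤ 8 ^ u.sz * (8 * t.code) := Nat.mul_le_mul_left _ h3
    have h6 : 8 ^ u.sz * (t.code + 1) ≤ 8 ^ u.sz * 8 ^ t.sz := Nat.mul_le_mul_left _ h4
    have h7 : 8 ^ u.sz * (8 * t.code) = 8 * (8 ^ u.sz * t.code) := by ring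
    have h8 : 8 ^ u.sz * (t.code + 1) = 8 ^ u.sz * t.code + 8 ^ u.sz := by ring
    have hd : dg b ≤ 4 := by cases b <;> simp [dg]
    constructor
    · omega
    · omega

theorem code_lt_of_sz {t t' : Lt} (h : t.sz < t'.sz) : t.code < t'.code := by
  have h1 := (code_bounds t).2
  have h2 := (code_bounds t').1
  have h3 : 8 ^ (t.sz + 1) ≤ 8 ^ t'.sz := Nat.pow_le_pow_right (by norm_num) h
  rw [pow_succ] at h3
  omega

theorem sz_le_of_code {t t' : Lt} (h : t.code ≤ t'.code) : t.sz ≤ t'.sz := by
  by_contra hc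
  have := code_lt_of_sz (not_le.1 hc)
  omega

theorem code_le_cat (t t' : Lt) : t.code ≤ (cat t t').code := by
  induction t with
  | Z =>
    have := code_pos t'
    simpa [cat, code] using this
  | S t ih => simp only [cat, code]; omega
  | A b u t _ ih =>
    simp only [cat, code]
    have := Nat.mul_le_mul_left (8 ^ u.sz) ih
    omega

theorem code_le_cat' (t t' : Lt) : t'.code ≤ (cat t t').code := by
  induction t with
  | Z => exact le_rfl
  | S t ih => simp only [cat, code]; omega
  | A b u t _ ih =>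
    simp only [cat, code]
    have h1 : (cat t t').code ≤ 8 ^ u.sz * (cat t t').code :=
      Nat.le_mul_of_pos_left _ (by positivity)
    omega

theorem code_A_left (b : Bool) (u t : Lt) : u.code < (A b u t).code := by
  simp only [code]
  have := code_pos u
  omega

theorem code_A_right (b : Bool) (u t : Lt) : t.code < (A b u t).code := by
  simp only [code]
  have h1 : t.code ≤ 8 ^ u.sz * t.code := Nat.le_mul_of_pos_left _ (by positivity)
  have := code_pos t
  omega

theorem code_S_lt (t : Lt) : t.code < (S t).code := by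
  simp only [code]
  omega

theorem exists_code (n : ℕ) : ∃ c, ∃ t : Lt, t.code = c ∧ t.val = n :=
  ⟨_, num n, rfl, val_num n⟩

open Classical in
/-- The term of least code with a given value. -/
noncomputable def can (n : ℕ) : Lt := Classical.choose (Nat.find_spec (exists_code n))

theorem val_can (n : ℕ) : (can n).val = n := by
  classical
  exact (Classical.choose_spec (Nat.find_spec (exists_code n))).2

theorem can_le {t : Lt} {n : ℕ} (h : t.val = n) : (can n).code ≤ t.code := by
  classical
  have h1 := (Classical.choose_spec (Nat.find_spec (exists_code n))).1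
  have h2 : (can n).code = Nat.find (exists_code n) := h1
  rw [h2]
  exact Nat.find_min' _ ⟨t, rfl, h⟩

theorem can_eq {t : Lt} (h : ∀ t' : Lt, t'.val = t.val → t.code ≤ t'.code) : can t.val = t :=
  code_inj (le_antisymm (can_le rfl) (h _ (val_can _)))

/-- Length of the name attached to a term. -/
def tl (t : Lt) : ℕ := 8 ^ (t.sz * t.sz) + t.code

/-- Names of the natural numbers. -/
noncomputable def nu (n : ℕ) : List Bool := List.replicate (tl (can n)) true

theorem tl_lt (t : Lt) : tl t < 2 * 8 ^ (t.sz * t.sz) := by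
  unfold tl
  have h1 := (code_bounds t).2
  have h2 : 8 ^ t.sz ≤ 8 ^ (t.sz * t.sz) :=
    Nat.pow_le_pow_right (by norm_num) (Nat.le_mul_self _)
  omega

theorem tl_inj {t t' : Lt} (h : tl t = tl t') : t = t' := by
  have key : ∀ s s' : Lt, s.sz < s'.sz → tl s < tl s' := by
    intro s s' hs
    have h1 := tl_lt s
    have h2 : 8 ^ (s'.sz * s'.sz) ≤ tl s' := by
      unfold tl
      omega
    have h3 : 8 ^ (s.sz * s.sz + 1) ≤ 8 ^ (s'.sz * s'.sz) := by
      apply Nat.pow_le_pow_right (by norm_num)
      have : (s.sz + 1) * (s.sz + 1) ≤ s'.sz * s'.sz := Nat.mul_le_mul hs hs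
      nlinarith
    rw [pow_succ] at h3
    omega
  have hs : t.sz = t'.sz := by
    rcases lt_trichotomy t.sz t'.sz with h1 | h1 | h1
    · have := key _ _ h1
      omega
    · exact h1
    · have := key _ _ h1
      omega
  apply code_inj
  unfold tl at h
  rw [hs] at h
  omega

theorem nu_inj : Function.Injective nu := by
  intro m n h
  have h1 := congrArg List.length h
  rw [nu, nu, List.length_replicate, List.length_replicate] at h1
  rw [← val_can m, tl_inj h1, val_can]

/-- Numbers with equal residues. -/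
theorem eq_of_mod {x y n : ℕ} (hn : 0 < n) (h : ∀ m, 0 < m → m ≤ 2 * n → x % m = y % m)
    (hx : 2 * n * x < 4 ^ n) (hy : 2 * n * y < 4 ^ n) : x = y := by
  have key : ∀ x y : ℕ, (∀ m, 0 < m → m ≤ 2 * n → x % m = y % m) → 2 * n * y < 4 ^ n →
      ¬ x < y := by
    intro x y h hy hlt
    obtain ⟨D, hD⟩ : ∃ D, D = y - x := ⟨_, rfl⟩
    have hD0 : D ≠ 0 := by omega
    have hdvd : ∀ m, 0 < m → m ≤ 2 * n → m ∣ D := by
      intro m hm hmn
      rw [hD]
      exact (Nat.modEq_iff_dvd' hlt.le).1 (h m hm hmn)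
    have hC : Nat.centralBinom n ∣ D := by
      rw [← Nat.factorization_prime_le_iff_dvd (Nat.centralBinom_ne_zero n) hD0]
      intro p hp
      rw [← hp.pow_dvd_iff_le_factorization hD0]
      apply hdvd
      · exact pow_pos hp.pos _
      · exact Nat.pow_factorization_choose_le (by omega)
    have h1 := Nat.le_of_dvd (by omega) hC
    have h2 := Nat.four_pow_le_two_mul_self_mul_centralBinom n hn
    have h3 : 2 * n * Nat.centralBinom n ≤ 2 * n * y := Nat.mul_le_mul_left _ (by omega)
    omega
  rcases lt_trichotomy x y with h1 | h1 | h1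
  · exact absurd h1 (key x y h hy)
  · exact h1
  · exact absurd h1 (key y x (fun m hm hmn => (h m hm hmn).symm) hx)

theorem val_small {N : ℕ} {t : Lt} (h : t.Small N) : t.val ≤ t.sz * 3 ^ N := by
  have h3 : 1 ≤ 3 ^ N := Nat.one_le_pow _ _ (by norm_num)
  induction t with
  | Z => simp [val]
  | S t ih =>
    have := ih h
    simp only [val, sz]
    nlinarith
  | A b u t _ ih =>
    obtain ⟨h1, h2⟩ := h
    have := ih h2
    simp only [val, sz]
    have h4 : bas b ^ u.val ≤ 3 ^ N := by
      calc bas b ^ u.val ≤ 3 ^ u.val := Nat.pow_le_pow_left (by cases b <;> simp [bas]) _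
        _ ≤ 3 ^ N := Nat.pow_le_pow_right (by norm_num) h1.le
    have h5 : u.sz * 3 ^ N + t.sz * 3 ^ N + 3 ^ N = (u.sz + t.sz + 1) * 3 ^ N := by ring
    have h6 : 0 ≤ u.sz * 3 ^ N := Nat.zero_le _
    omega

/-- The threshold for small exponents. -/
def thr (N : ℕ) : ℕ := (N + 7) / 8

theorem lt_thr {v N : ℕ} : v < thr N ↔ 8 * v < N := by
  unfold thr
  omega

/-- Small terms with equal residues have equal values. -/
theorem small_eq {N : ℕ} (hN : 64 ≤ N) {t t' : Lt} (hs : t.sz ≤ N) (hs' : t'.sz ≤ N)
    (ht : t.Small (thr N)) (ht' : t'.Small (thr N))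
    (h : ∀ m, 0 < m → m < N → t.val % m = t'.val % m) : t.val = t'.val := by
  obtain ⟨n, hn⟩ : ∃ n, n = (N - 1) / 2 := ⟨_, rfl⟩
  have key : ∀ s : Lt, s.sz ≤ N → s.Small (thr N) → 2 * n * s.val < 4 ^ n := by
    intro s hs hsm
    have h1 := val_small hsm
    have h2 : s.sz * 3 ^ thr N ≤ N * 4 ^ thr N :=
      Nat.mul_le_mul hs (Nat.pow_le_pow_left (by norm_num) _)
    obtain ⟨m, hm⟩ : ∃ m, m = N / 4 := ⟨_, rfl⟩
    have h3 : N < 2 ^ m := by
      obtain ⟨j, hj⟩ : ∃ j, m = j + 5 := ⟨m - 5, by omega⟩
      have h4 : j < 2 ^ j := Nat.lt_two_pow_self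
      rw [hj, pow_add]
      omega
    have h5 : thr N + m ≤ n := by
      unfold thr
      omega
    have h6 : (2 * n) * N < 2 ^ m * 2 ^ m := Nat.mul_lt_mul'' (by omega) h3
    have h7 : 2 ^ m * 2 ^ m = 4 ^ m := by
      rw [← mul_pow]
      norm_num
    calc 2 * n * s.val ≤ 2 * n * (N * 4 ^ thr N) := Nat.mul_le_mul_left _ (h1.trans h2)
      _ = ((2 * n) * N) * 4 ^ thr N := by ring
      _ < 4 ^ m * 4 ^ thr N := by
          rw [← h7]
          exact Nat.mul_lt_mul_of_pos_right h6 (by positivity)
      _ = 4 ^ (thr N + m) := by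
          rw [pow_add]
          ring
      _ ≤ 4 ^ n := Nat.pow_le_pow_right (by norm_num) h5
  exact eq_of_mod (n := n) (by omega) (fun m hm hmn => h m hm (by omega)) (key t hs ht)
    (key t' hs' ht')

end AM21
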