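import Pool.Agent.AM21.Terms

/-!
# Completeness of the calculus
-/

set_option autoImplicit false

namespace AM21

open BK21 Lt

/-- Splitting a list of items by a predicate on indices and by the base. -/
theorem split_list (L : List (Bool × Lt)) (τ : Fin L.length → Prop) [DecidablePred τ] :
    ∃ (P Q : List Lt) (W : List (Bool × Lt)),
      L.Perm (itm false P ++ (itm true Q ++ W)) ∧
      psum false P = ∑ i, (if τ i ∧ (L.get i).1 = false then 2 ^ (L.get i).2.val else 0) ∧
      psum true Q = ∑ i, (if τ i ∧ (L.get i).1 = true then 3 ^ (L.get i).2.val else 0) ∧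
      ∀ p ∈ W, ∃ i, ¬ τ i ∧ L.get i = p := by
  classical
  obtain ⟨F, hF⟩ : ∃ F, F = List.finRange L.length := ⟨_, rfl⟩
  obtain ⟨F1, hF1⟩ : ∃ F1, F1 = F.filter (fun i => decide (τ i)) := ⟨_, rfl⟩
  obtain ⟨F2, hF2⟩ : ∃ F2, F2 = F.filter (fun i => !decide (τ i)) := ⟨_, rfl⟩
  obtain ⟨G0, hG0⟩ : ∃ G0, G0 = F1.filter (fun i => !(L.get i).1) := ⟨_, rfl⟩
  obtain ⟨G1, hG1⟩ : ∃ G1, G1 = F1.filter (fun i => (L.get i).1) := ⟨_, rfl⟩
  have hFnd : F.Nodup := by
    rw [hF]
    exact List.nodup_finRange _
  have hp1 : F.Perm (F1 ++ F2) := by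
    rw [hF1, hF2]
    exact (List.filter_append_perm _ _).symm
  have hp2 : F1.Perm (G0 ++ G1) := by
    rw [hG0, hG1]
    have := List.filter_append_perm (fun i => !(L.get i).1) F1
    simp only [Bool.not_not] at this
    exact this.symm
  have hG0v : ∀ i ∈ G0, (L.get i).1 = false := by
    intro i hi
    rw [hG0, List.mem_filter] at hi
    simpa using hi.2
  have hG1v : ∀ i ∈ G1, (L.get i).1 = true := by
    intro i hi
    rw [hG1, List.mem_filter] at hi
    simpa using hi.2
  refine ⟨G0.map fun i => (L.get i).2, G1.map fun i => (L.get i).2, F2.map L.get, ?_, ?_, ?_, ?_⟩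
  · have e : L = F.map L.get := by
      rw [hF]
      exact (List.map_get_finRange L).symm
    have e0 : itm false (G0.map fun i => (L.get i).2) = G0.map L.get := by
      unfold itm
      rw [List.map_map]
      refine List.map_congr_left fun i hi => ?_
      have := hG0v i hi
      exact Prod.ext this.symm rfl
    have e1 : itm true (G1.map fun i => (L.get i).2) = G1.map L.get := by
      unfold itm
      rw [List.map_map]
      refine List.map_congr_left fun i hi => ?_
      have := hG1v i hi
      exact Prod.ext this.symm rfl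
    rw [e0, e1, ← List.append_assoc, ← List.map_append, ← List.map_append]
    conv_lhs => rw [e]
    exact (hp1.trans (hp2.append_right F2)).map _
  · have hnd : G0.Nodup := by
      rw [hG0, hF1]
      exact (hFnd.filter _).filter _
    unfold psum
    rw [List.map_map]
    have h1 := List.sum_toFinset (fun i : Fin L.length => 2 ^ (L.get i).2.val) hnd
    have h2 : G0.map ((fun u : Lt => bas false ^ u.val) ∘ fun i => (L.get i).2) =
        G0.map (fun i : Fin L.length => 2 ^ (L.get i).2.val) := rfl
    rw [h2, ← h1, ← Finset.sum_filter]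
    refine Finset.sum_congr ?_ fun _ _ => rfl
    ext i
    rw [List.mem_toFinset, hG0, hF1, hF]
    simp [and_comm]
  · have hnd : G1.Nodup := by
      rw [hG1, hF1]
      exact (hFnd.filter _).filter _
    unfold psum
    rw [List.map_map]
    have h1 := List.sum_toFinset (fun i : Fin L.length => 3 ^ (L.get i).2.val) hnd
    have h2 : G1.map ((fun u : Lt => bas true ^ u.val) ∘ fun i => (L.get i).2) =
        G1.map (fun i : Fin L.length => 3 ^ (L.get i).2.val) := rfl
    rw [h2, ← h1, ← Finset.sum_filter]
    refine Finset.sum_congr ?_ fun _ _ => rfl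
    ext i
    rw [List.mem_toFinset, hG1, hF1, hF]
    simp [and_comm]
  · intro p hp
    obtain ⟨i, hi, rfl⟩ := List.mem_map.1 hp
    refine ⟨i, ?_, rfl⟩
    rw [hF2, List.mem_filter] at hi
    simpa using hi.2

theorem sum_get (L : List (Bool × Lt)) (f : Bool × Lt → ℤ) :
    (L.map f).sum = ∑ i : Fin L.length, f (L.get i) := by
  have e : L.map f = (List.finRange L.length).map (fun i => f (L.get i)) := by
    conv_lhs => rw [← List.map_get_finRange L, List.map_map]
    rfl
  rw [e, ← List.sum_toFinset _ (List.nodup_finRange _)]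
  simp

/-- Decomposition of a relation between two sums. -/
theorem decomp {L L' : List (Bool × Lt)} {c c' k G lam₀ : ℕ} (hk : 1 ≤ k)
    (hLk : L.length + L'.length ≤ k) (hG : c ≤ G) (hG' : c' ≤ G)
    (hbig : ∀ lam ≥ lam₀, 16 * ((k + G + 10) * (2 ^ 84 * lam ^ 3) ^ k) ≤ 2 ^ lam)
    (hsum : (L.map pv).sum + c = (L'.map pv).sum + c') :
    ∃ (P P' Q Q' : List Lt) (W W' : List (Bool × Lt)),
      L.Perm (itm false P ++ (itm true Q ++ W)) ∧
      L'.Perm (itm false P' ++ (itm true Q' ++ W')) ∧
      psum false P = psum false P' ∧ psum true Q = psum true Q' ∧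
      (∀ p ∈ W, p.2.val < 2 ^ lam₀) ∧ ∀ p ∈ W', p.2.val < 2 ^ lam₀ := by
  classical
  set s : Fin L.length ⊕ Fin L'.length → ℤ := Sum.elim (fun _ => 1) (fun _ => -1) with hs
  set t : Fin L.length ⊕ Fin L'.length → Bool :=
    Sum.elim (fun i => (L.get i).1) (fun i => (L'.get i).1) with ht
  set e : Fin L.length ⊕ Fin L'.length → ℕ :=
    Sum.elim (fun i => (L.get i).2.val) (fun i => (L'.get i).2.val) with he
  have hcard : (Finset.univ : Finset (Fin L.length ⊕ Fin L'.length)).card ≤ k := by
    rw [Finset.card_univ, Fintype.card_sum, Fintype.card_fin, Fintype.card_fin]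
    exact hLk
  have hsum' : ∑ i ∈ (Finset.univ : Finset (Fin L.length ⊕ Fin L'.length)),
      s i * (bas (t i) : ℤ) ^ e i = (c' : ℤ) - c := by
    rw [Fintype.sum_sum_type]
    have h1 : ((L.map pv).sum : ℤ) + c = (L'.map pv).sum + c' := by exact_mod_cast hsum
    have h2 : ∀ K : List (Bool × Lt), ((K.map pv).sum : ℤ) =
        ∑ i : Fin K.length, (bas (K.get i).1 : ℤ) ^ (K.get i).2.val := by
      intro K
      have h3 : ((K.map pv).sum : ℤ) = (K.map fun p => ((pv p : ℕ) : ℤ)).sum := by
        induction K with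
        | nil => simp
        | cons p K ih => simp [ih]
      rw [h3, sum_get K fun p => ((pv p : ℕ) : ℤ)]
      refine Finset.sum_congr rfl fun i _ => ?_
      simp [pv]
    rw [h2 L, h2 L'] at h1
    simp only [hs, ht, he, Sum.elim_inl, Sum.elim_inr, one_mul, neg_mul, Finset.sum_neg_distrib]
    linarith
  obtain ⟨T, -, hT2, hT3, hTs⟩ := gap s t e hk hbig _ Finset.univ le_rfl hcard
    (by
      intro i _
      rcases i with i | i <;> simp [hs])
    (by
      rw [hsum', abs_le]
      constructor
      · have : (c : ℤ) ≤ G := by exact_mod_cast hG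
        have : (0 : ℤ) ≤ c' := by positivity
        linarith
      · have : (c' : ℤ) ≤ G := by exact_mod_cast hG'
        have : (0 : ℤ) ≤ c := by positivity
        linarith)
  obtain ⟨P, Q, W, h1, h2, h3, h4⟩ := split_list L (fun i => Sum.inl i ∈ T)
  obtain ⟨P', Q', W', h1', h2', h3', h4'⟩ := split_list L' (fun i => Sum.inr i ∈ T)
  refine ⟨P, P', Q, Q', W, W', h1, h1', ?_, ?_, ?_, ?_⟩
  · have key : ∑ i ∈ T with t i = false, s i * (2 : ℤ) ^ e i =
        (psum false P : ℤ) - psum false P' := by
      have e1 : T.filter (fun i => t i = false) =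
          Finset.univ.filter (fun i => i ∈ T ∧ t i = false) := by
        ext i
        simp
      rw [e1, Finset.sum_filter, Fintype.sum_sum_type, h2, h2']
      push_cast
      rw [sub_eq_add_neg, ← Finset.sum_neg_distrib]
      congr 1
      · refine Finset.sum_congr rfl fun i _ => ?_
        simp only [hs, ht, he, Sum.elim_inl, one_mul]
      · refine Finset.sum_congr rfl fun i _ => ?_
        simp only [hs, ht, he, Sum.elim_inr, neg_mul, one_mul]
        split_ifs <;> simp
    rw [hT2] at key
    have : (psum false P : ℤ) = psum false P' := by linarith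
    exact_mod_cast this
  · have key : ∑ i ∈ T with t i = true, s i * (3 : ℤ) ^ e i =
        (psum true Q : ℤ) - psum true Q' := by
      have e1 : T.filter (fun i => t i = true) =
          Finset.univ.filter (fun i => i ∈ T ∧ t i = true) := by
        ext i
        simp
      rw [e1, Finset.sum_filter, Fintype.sum_sum_type, h3, h3']
      push_cast
      rw [sub_eq_add_neg, ← Finset.sum_neg_distrib]
      congr 1
      · refine Finset.sum_congr rfl fun i _ => ?_
        simp only [hs, ht, he, Sum.elim_inl, one_mul]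
      · refine Finset.sum_congr rfl fun i _ => ?_
        simp only [hs, ht, he, Sum.elim_inr, neg_mul, one_mul]
        split_ifs <;> simp
    rw [hT3] at key
    have : (psum true Q : ℤ) = psum true Q' := by linarith
    exact_mod_cast this
  · intro p hp
    obtain ⟨i, hi, rfl⟩ := h4 p hp
    exact hTs (Sum.inl i) (by simp [hi])
  · intro p hp
    obtain ⟨i, hi, rfl⟩ := h4' p hp
    exact hTs (Sum.inr i) (by simp [hi])

theorem small_num (N c : ℕ) : (num c).Small N := by
  induction c with
  | zero => trivial
  | succ c ih => exact ih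

theorem small_mk {N : ℕ} {W : List (Bool × Lt)} (h : ∀ p ∈ W, p.2.val < N) (c : ℕ) :
    (mk W (num c)).Small N := by
  induction W with
  | nil => exact small_num N c
  | cons p W ih =>
    rw [mk_cons]
    exact ⟨h p (by simp), ih fun q hq => h q (by simp [hq])⟩

/-- Completeness at bounded depth. -/
theorem complete_aux {M N n lam₀ : ℕ} {R : Lt → Lt → Prop} (hR : Closed M N R)
    (hbig : ∀ lam ≥ lam₀, 16 * ((2 * n + 1 + M + 10) * (2 ^ 84 * lam ^ 3) ^ (2 * n + 1)) ≤
      2 ^ lam) (hN : 2 ^ lam₀ ≤ N) :
    ∀ (d : ℕ) (t t' : Lt), t.dp ≤ d → t'.dp ≤ d → t.nE ≤ n → t'.nE ≤ n →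
      t.sz + 2 * n * d ≤ M → t'.sz + 2 * n * d ≤ M → t.val = t'.val → R t t' := by
  intro d
  induction d with
  | zero =>
    intro t t' hd hd' _ _ hs hs' hv
    obtain ⟨L, c, h1, h2, h3, h4, -, -⟩ := R_norm hR t (by omega)
    obtain ⟨L', c', h1', h2', h3', h4', -, -⟩ := R_norm hR t' (by omega)
    have hL : L = [] := by
      rw [List.eq_nil_iff_forall_not_mem]
      intro p hp
      have := (h4 p hp).1
      omega
    have hL' : L' = [] := by
      rw [List.eq_nil_iff_forall_not_mem]
      intro p hp
      have := (h4' p hp).1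
      omega
    subst hL
    subst hL'
    rw [mk_nil] at h1 h2 h3 h1' h2' h3'
    rw [val_num] at h3 h3'
    have hcc : c = c' := by omega
    subst hcc
    exact hR.trans _ _ _ (by omega) (by omega) (by omega) h1
      (hR.symm _ _ (by omega) (by omega) h1')
  | succ d ih =>
    intro t t' hd hd' hn hn' hs hs' hv
    have hexp : 2 * n * (d + 1) = 2 * n * d + 2 * n := by ring
    rw [hexp] at hs hs'
    obtain ⟨L, c, h1, h2, h3, h4, h5, h6⟩ := R_norm hR t (by omega)
    obtain ⟨L', c', h1', h2', h3', h4', h5', h6'⟩ := R_norm hR t' (by omega)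
    have hsum : (L.map pv).sum + c = (L'.map pv).sum + c' := by
      rw [val_mk, val_num] at h3 h3'
      omega
    obtain ⟨P, P', Q, Q', W, W', p1, p1', eP, eQ, hW, hW'⟩ := decomp (k := 2 * n + 1) (G := M)
      (by omega) (by omega) (by omega) (by omega) hbig hsum
    have z : (mk (itm false P ++ (itm true Q ++ W)) (num c)).sz = t.sz := by
      rw [← h2, sz_mk, sz_mk, (p1.map ps).sum_eq]
    have z' : (mk (itm false P' ++ (itm true Q' ++ W')) (num c')).sz = t'.sz := by
      rw [← h2', sz_mk, sz_mk, (p1'.map ps).sum_eq]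
    have r1 := R_perm hR p1 (t := num c) (by omega)
    have r1' := R_perm hR p1' (t := num c') (by omega)
    have len := p1.length_eq
    have len' := p1'.length_eq
    simp only [List.length_append, itm, List.length_map] at len len'
    rw [mk_append, mk_append] at z z' r1 r1'
    have zz := z
    have zz' := z'
    rw [sz_mk] at zz zz'
    have zz2 := sz_mk (itm true Q) (mk W (num c))
    have zz2' := sz_mk (itm true Q') (mk W' (num c'))
    -- the small part
    have rW : R (mk W (num c)) (mk W' (num c')) := by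
      refine hR.small _ _ (by omega) (by omega)
        (small_mk (fun p hp => (hW p hp).trans_le hN) c)
        (small_mk (fun p hp => (hW' p hp).trans_le hN) c') ?_
      have q1 := (p1.map pv).sum_eq
      have q1' := (p1'.map pv).sum_eq
      simp only [List.map_append, List.sum_append, sum_itm] at q1 q1'
      rw [val_mk, val_mk, val_num, val_num]
      omega
    have hP : ∀ u u' : Lt, u.dp ≤ d → u'.dp ≤ d → u.nE ≤ n → u'.nE ≤ n →
        u.sz ≤ M - 2 * n * d → u'.sz ≤ M - 2 * n * d → u.val = u'.val → R u u' := by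
      intro u u' a1 a2 a3 a4 a5 a6 a7
      have b1 := one_le_sz u
      have b2 := one_le_sz u'
      exact ih u u' a1 a2 a3 a4 (by omega) (by omega) a7
    have mP : ∀ u ∈ P, (false, u) ∈ L := by
      intro u hu
      rw [p1.mem_iff]
      exact List.mem_append.2 (Or.inl (List.mem_map.2 ⟨u, hu, rfl⟩))
    have mQ : ∀ u ∈ Q, (true, u) ∈ L := by
      intro u hu
      rw [p1.mem_iff]
      exact List.mem_append.2 (Or.inr (List.mem_append.2
        (Or.inl (List.mem_map.2 ⟨u, hu, rfl⟩))))
    have mP' : ∀ u ∈ P', (false, u) ∈ L' := by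
      intro u hu
      rw [p1'.mem_iff]
      exact List.mem_append.2 (Or.inl (List.mem_map.2 ⟨u, hu, rfl⟩))
    have mQ' : ∀ u ∈ Q', (true, u) ∈ L' := by
      intro u hu
      rw [p1'.mem_iff]
      exact List.mem_append.2 (Or.inr (List.mem_append.2
        (Or.inl (List.mem_map.2 ⟨u, hu, rfl⟩))))
    have rQ : R (mk (itm true Q) (mk W (num c))) (mk (itm true Q') (mk W' (num c'))) := by
      refine R_merge hR true d n (M - 2 * n * d) (by omega) hP _ Q Q' le_rfl ?_ ?_ eQ _ _
        (by omega) (by omega) rW
      · intro u hu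
        have := h4 _ (mQ u hu)
        simp only at this
        exact ⟨by omega, by omega, by omega⟩
      · intro u hu
        have := h4' _ (mQ' u hu)
        simp only at this
        exact ⟨by omega, by omega, by omega⟩
    have rP : R (mk (itm false P) (mk (itm true Q) (mk W (num c))))
        (mk (itm false P') (mk (itm true Q') (mk W' (num c')))) := by
      refine R_merge hR false d n (M - 2 * n * d) (by omega) hP _ P P' le_rfl ?_ ?_ eP _ _
        (by omega) (by omega) rQ
      · intro u hu
        have := h4 _ (mP u hu)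
        simp only at this
        exact ⟨by omega, by omega, by omega⟩
      · intro u hu
        have := h4' _ (mP' u hu)
        simp only at this
        exact ⟨by omega, by omega, by omega⟩
    have s1 : t.sz ≤ M := by omega
    have s1' : t'.sz ≤ M := by omega
    have a1 := hR.trans _ _ _ s1 (by omega) (by omega) h1 r1
    have a2 := hR.trans _ _ _ s1' (by omega) (by omega) h1' r1'
    exact hR.trans _ _ _ s1 (by omega) s1' (hR.trans _ _ _ s1 (by omega) (by omega) a1 rP)
      (hR.symm _ _ s1' (by omega) a2)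

/-- Completeness: two terms with the same value are related. -/
theorem complete {M N s : ℕ} (hs : 1 ≤ s) (hM : M = s + 2 * s * s) {R : Lt → Lt → Prop}
    (hR : Closed M N R) (hN : 2 ^ (160000 * s ^ 2) ≤ N) {t t' : Lt} (ht : t.sz ≤ s)
    (ht' : t'.sz ≤ s) (hv : t.val = t'.val) : R t t' := by
  have hG : M ≤ 2 ^ (4 * s) := by
    have h1 : s < 2 ^ s := Nat.lt_two_pow_self
    have h2 : 2 ^ (4 * s) = 2 ^ s * 2 ^ s * (2 ^ s * 2 ^ s) := by
      rw [← pow_add, ← pow_add]
      congr 1
      omega
    have h3 : s * s ≤ 2 ^ s * 2 ^ s := Nat.mul_le_mul h1.le h1.le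
    have h4 : 2 * 2 ≤ 2 ^ s * 2 ^ s := by
      have : 2 ≤ 2 ^ s := by
        calc 2 = 2 ^ 1 := rfl
          _ ≤ 2 ^ s := Nat.pow_le_pow_right (by norm_num) hs
      exact Nat.mul_le_mul this this
    rw [hM, h2]
    have h5 : s ≤ s * s := by nlinarith
    calc s + 2 * s * s ≤ (s * s) * (2 * 2) := by nlinarith
      _ ≤ _ := Nat.mul_le_mul h3 h4
  have hlam : 2 ^ (10000 * (4 * s) ^ 2) ≤ N := by
    have : 10000 * (4 * s) ^ 2 = 160000 * s ^ 2 := by ring
    rw [this]
    exact hN
  have a1 := dp_le t
  have a2 := nE_lt t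
  have a1' := dp_le t'
  have a2' := nE_lt t'
  have e : 2 * s * s = 2 * s * s := rfl
  exact complete_aux (n := s) hR (bound_ok (m := 4 * s) (by omega) (by omega) hG) hlam s t t'
    (by omega) (by omega) (by omega) (by omega) (by rw [hM]; omega) (by rw [hM]; omega) hv

end AM21
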