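import Pool.Agent.AM21.Sound

/-!
# The tables at a fixed point are complete
-/

set_option autoImplicit false

namespace AM21

open BK21 Lt Pool.Agent.PTL

section fixed

variable {N : ℕ} {w v : List Bool} (hN : 64 ≤ N) (hw : Snd N w v)
  (hf : ∀ r < 9, ∀ x < N, ∀ y < N, ∀ z < N, step N w r x y z → lk N w r x y z)
include hN hf

theorem c0 {p : ℕ} (hp : 2 ≤ p) (hpN : p < N) : ∀ a, p ^ a < N → lk N w 0 p a (p ^ a) := by
  intro a
  induction a with
  | zero =>
    intro ha
    exact hf 0 (by norm_num) _ hpN _ (by omega) _ ha (Or.inr (Or.inl ⟨rfl, Or.inl ⟨rfl, rfl⟩⟩))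
  | succ a ih =>
    intro ha
    have h1 : a + 1 < p ^ (a + 1) := Nat.lt_pow_self hp
    have h2 : p ^ a ≤ p ^ (a + 1) := Nat.pow_le_pow_right (by omega) (by omega)
    refine hf 0 (by norm_num) _ hpN _ (by omega) _ ha (Or.inr (Or.inl ⟨rfl, Or.inr
      ⟨a, by omega, p ^ a, by omega, rfl, ?_, ih (by omega)⟩⟩))
    rw [pow_succ]
    ring

theorem c1 {m : ℕ} (hm : 0 < m) (hmN : m < N) : ∀ a < N, lk N w 1 m a (2 ^ a % m) := by
  intro a
  induction a with
  | zero =>
    intro ha
    have h1 : 2 ^ 0 % m < m := Nat.mod_lt _ hm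
    refine hf 1 (by norm_num) _ hmN _ ha _ (by omega) (Or.inr (Or.inr (Or.inl ⟨rfl, ⟨hm, h1⟩,
      Or.inl ⟨rfl, 1 / m, ?_, ?_⟩⟩)))
    · have := Nat.div_le_self 1 m
      omega
    · rw [pow_zero]
      exact Nat.div_add_mod' 1 m
  | succ a ih =>
    intro ha
    have h1 : 2 ^ (a + 1) % m < m := Nat.mod_lt _ hm
    have h0 : 2 ^ a % m < m := Nat.mod_lt _ hm
    have e : 2 ^ (a + 1) % m = 2 * (2 ^ a % m) % m := by
      rw [pow_succ, mul_comm, Nat.mul_mod_mod]
    refine hf 1 (by norm_num) _ hmN _ ha _ (by omega) (Or.inr (Or.inr (Or.inl ⟨rfl, ⟨hm, h1⟩,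
      Or.inr ⟨a, by omega, 2 ^ a % m, by omega, 2 * (2 ^ a % m) / m, ?_, rfl, ?_,
        ih (by omega)⟩⟩)))
    · have : 2 * (2 ^ a % m) / m < 2 := by
        rw [Nat.div_lt_iff_lt_mul hm]
        omega
      omega
    · rw [e]
      exact Nat.div_add_mod' _ m

theorem c2 {m : ℕ} (hm : 0 < m) (hmN : m < N) : ∀ a < N, lk N w 2 m a (3 ^ a % m) := by
  intro a
  induction a with
  | zero =>
    intro ha
    have h1 : 3 ^ 0 % m < m := Nat.mod_lt _ hm
    refine hf 2 (by norm_num) _ hmN _ ha _ (by omega) (Or.inr (Or.inr (Or.inr (Or.inl ⟨rfl,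
      ⟨hm, h1⟩, Or.inl ⟨rfl, 1 / m, ?_, ?_⟩⟩))))
    · have := Nat.div_le_self 1 m
      omega
    · rw [pow_zero]
      exact Nat.div_add_mod' 1 m
  | succ a ih =>
    intro ha
    have h1 : 3 ^ (a + 1) % m < m := Nat.mod_lt _ hm
    have h0 : 3 ^ a % m < m := Nat.mod_lt _ hm
    have e : 3 ^ (a + 1) % m = 3 * (3 ^ a % m) % m := by
      rw [pow_succ, mul_comm, Nat.mul_mod_mod]
    refine hf 2 (by norm_num) _ hmN _ ha _ (by omega) (Or.inr (Or.inr (Or.inr (Or.inl ⟨rfl,
      ⟨hm, h1⟩, Or.inr ⟨a, by omega, 3 ^ a % m, by omega, 3 * (3 ^ a % m) / m, ?_, rfl, ?_,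
        ih (by omega)⟩⟩))))
    · have : 3 * (3 ^ a % m) / m < 3 := by
        rw [Nat.div_lt_iff_lt_mul hm]
        omega
      omega
    · rw [e]
      exact Nat.div_add_mod' _ m

theorem pow_sz_lt {b : Bool} {u t : Lt} (h : (A b u t).code < N) : 8 ^ u.sz < N := by
  have h1 := code_pos t
  have h2 : 8 ^ u.sz ≤ 8 ^ u.sz * t.code := Nat.le_mul_of_pos_right _ h1
  simp only [code] at h
  omega

theorem c3 (t : Lt) : t.code < N → lk N w 3 t.code t.sz 0 := by
  induction t with
  | Z =>
    intro _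
    exact hf 3 (by norm_num) _ (by simp only [code]; omega) _ (by simp only [sz]; omega) _
      (by omega) (Or.inr (Or.inr (Or.inr (Or.inr (Or.inl ⟨rfl, Or.inl ⟨rfl, rfl⟩⟩)))))
  | S t ih =>
    intro h
    have h1 := code_S_lt t
    have h2 := sz_le_code t
    have h3 := sz_le_code (S t)
    exact hf 3 (by norm_num) _ h _ (by omega) _ (by omega) (Or.inr (Or.inr (Or.inr (Or.inr
      (Or.inl ⟨rfl, Or.inr (Or.inl ⟨t.code, by omega, t.sz, by omega, rfl, rfl,
        ih (by omega)⟩)⟩)))))
  | A b u t ihu iht =>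
    intro h
    have h1 := code_A_left b u t
    have h2 := code_A_right b u t
    have h3 := sz_le_code (A b u t)
    have h4 := sz_le_code u
    have h5 := sz_le_code t
    have h6 := pow_sz_lt hN hf h
    refine hf 3 (by norm_num) _ h _ (by omega) _ (by omega) (Or.inr (Or.inr (Or.inr (Or.inr
      (Or.inl ⟨rfl, Or.inr (Or.inr ⟨u.code, by omega, t.code, by omega, u.sz, by omega, t.sz,
        by omega, 8 ^ u.sz, h6, ihu (by omega), iht (by omega),
        c0 hN hf (by norm_num) (by omega) _ h6, ?_, rfl⟩)⟩)))))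
    cases b
    · exact Or.inl rfl
    · exact Or.inr rfl

theorem cAA {b : Bool} {u t : Lt} (h : (A b u t).code < N) :
    AA N w (dg b) (A b u t).code u.code t.code := by
  have h1 := code_A_left b u t
  have h2 := code_A_right b u t
  have h4 := sz_le_code u
  have h5 := sz_le_code t
  have h6 := pow_sz_lt hN hf h
  exact ⟨u.sz, by omega, t.sz, by omega, 8 ^ u.sz, h6, c3 hN hf u (by omega),
    c3 hN hf t (by omega), c0 hN hf (by norm_num) (by omega) _ h6, rfl⟩

theorem c4 (t : Lt) : t.code < N → t.val < N → lk N w 4 t.code t.val 0 := by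
  induction t with
  | Z =>
    intro _ _
    exact hf 4 (by norm_num) _ (by simp only [code]; omega) _ (by simp only [val]; omega) _
      (by omega) (Or.inr (Or.inr (Or.inr (Or.inr (Or.inr (Or.inl ⟨rfl, Or.inl ⟨rfl, rfl⟩⟩))))))
  | S t ih =>
    intro h hv
    have h1 := code_S_lt t
    have hv' : t.val + 1 < N := hv
    exact hf 4 (by norm_num) _ h _ hv _ (by omega) (Or.inr (Or.inr (Or.inr (Or.inr (Or.inr
      (Or.inl ⟨rfl, Or.inr (Or.inl ⟨t.code, by omega, t.val, by omega, rfl, rfl,
        ih (by omega) (by omega)⟩)⟩))))))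
  | A b u t ihu iht =>
    intro h hv
    have h1 := code_A_left b u t
    have h2 := code_A_right b u t
    have hv' : bas b ^ u.val + t.val < N := hv
    have h3 : u.val < bas b ^ u.val := Nat.lt_pow_self (one_lt_bas b)
    refine hf 4 (by norm_num) _ h _ hv _ (by omega) (Or.inr (Or.inr (Or.inr (Or.inr (Or.inr
      (Or.inl ⟨rfl, Or.inr (Or.inr ⟨u.code, by omega, t.code, by omega, u.val, by omega,
        t.val, by omega, bas b ^ u.val, by omega, ?_, ihu (by omega) (by omega),
        iht (by omega) (by omega), rfl⟩)⟩))))))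
    have hAA := cAA hN hf h
    cases b
    · exact Or.inl ⟨hAA, c0 hN hf (by norm_num) (by omega) _ (by simp only [bas] at hv'; omega)⟩
    · exact Or.inr ⟨hAA, c0 hN hf (by norm_num) (by omega) _ (by simp only [bas] at hv'; omega)⟩

theorem c5 (t : Lt) : t.code < N → t.Small (thr N) → ∀ m, 0 < m → m < N →
    lk N w 5 t.code m (t.val % m) := by
  induction t with
  | Z =>
    intro _ _ m hm hmN
    refine hf 5 (by norm_num) _ (by simp only [code]; omega) _ hmN _ ?_ (Or.inr (Or.inr (Or.inr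
      (Or.inr (Or.inr (Or.inr (Or.inl ⟨rfl, ⟨hm, ?_⟩, Or.inl ⟨rfl, ?_⟩⟩)))))))
    · have : Z.val % m < m := Nat.mod_lt _ hm
      omega
    · exact Nat.mod_lt _ hm
    · simp [val]
  | S t ih =>
    intro h hs m hm hmN
    have h1 := code_S_lt t
    have h2 : (S t).val % m < m := Nat.mod_lt _ hm
    have h3 : t.val % m < m := Nat.mod_lt _ hm
    have e : (S t).val % m = (t.val % m + 1) % m := by
      simp only [val, Nat.mod_add_mod]
    refine hf 5 (by norm_num) _ h _ hmN _ (by omega) (Or.inr (Or.inr (Or.inr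
      (Or.inr (Or.inr (Or.inr (Or.inl ⟨rfl, ⟨hm, h2⟩, Or.inr (Or.inl ⟨t.code, by omega,
        t.val % m, by omega, (t.val % m + 1) / m, ?_, rfl, ih (by omega) hs m hm hmN,
        ?_⟩)⟩)))))))
    · have : (t.val % m + 1) / m < 2 := by
        rw [Nat.div_lt_iff_lt_mul hm]
        omega
      omega
    · rw [e]
      exact Nat.div_add_mod' _ m
  | A b u t ihu iht =>
    intro h hs m hm hmN
    obtain ⟨hs1, hs2⟩ := hs
    rw [lt_thr] at hs1
    have h1 := code_A_left b u t
    have h2 := code_A_right b u t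
    have h3 : (A b u t).val % m < m := Nat.mod_lt _ hm
    have h4 : t.val % m < m := Nat.mod_lt _ hm
    have h5 : bas b ^ u.val % m < m := Nat.mod_lt _ hm
    have e : (A b u t).val % m = (bas b ^ u.val % m + t.val % m) % m := by
      simp only [val]
      exact Nat.add_mod _ _ _
    refine hf 5 (by norm_num) _ h _ hmN _ (by omega) (Or.inr (Or.inr (Or.inr
      (Or.inr (Or.inr (Or.inr (Or.inl ⟨rfl, ⟨hm, h3⟩, Or.inr (Or.inr ⟨u.code, by omega,
        t.code, by omega, u.val, by omega, bas b ^ u.val % m, by omega, t.val % m, by omega,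
        (bas b ^ u.val % m + t.val % m) / m, ?_, ?_, hs1, c4 hN hf u (by omega) (by omega),
        iht (by omega) hs2 m hm hmN, ?_⟩)⟩)))))))
    · have : (bas b ^ u.val % m + t.val % m) / m < 2 := by
        rw [Nat.div_lt_iff_lt_mul hm]
        omega
      omega
    · have hAA := cAA hN hf h
      cases b
      · exact Or.inl ⟨hAA, c1 hN hf hm hmN _ (by omega)⟩
      · exact Or.inr ⟨hAA, c2 hN hf hm hmN _ (by omega)⟩
    · rw [e]
      exact Nat.div_add_mod' _ m

theorem c6 (t t' : Lt) : (cat t t').code < N → lk N w 6 t.code t'.code (cat t t').code := by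
  induction t with
  | Z =>
    intro h
    have h' : t'.code < N := h
    have h1 := sz_le_code t'
    exact hf 6 (by norm_num) _ (by simp only [code]; omega) _ h' _ h (Or.inr (Or.inr (Or.inr
      (Or.inr (Or.inr (Or.inr (Or.inr (Or.inl ⟨rfl, Or.inl ⟨rfl, rfl, t'.sz, by omega,
        c3 hN hf t' h'⟩⟩))))))))
  | S t ih =>
    intro h
    have h1 := code_le_cat (S t) t'
    have h2 := code_le_cat' (S t) t'
    have h3 := code_S_lt t
    have h4 : (S (cat t t')).code < N := h
    have h5 := code_S_lt (cat t t')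
    exact hf 6 (by norm_num) _ (by omega) _ (by omega) _ h (Or.inr (Or.inr (Or.inr
      (Or.inr (Or.inr (Or.inr (Or.inr (Or.inl ⟨rfl, Or.inr (Or.inl ⟨t.code, by omega,
        (cat t t').code, by omega, rfl, rfl, ih (by omega)⟩)⟩))))))))
  | A b u t _ ih =>
    intro h
    have h1 := code_le_cat (A b u t) t'
    have h2 := code_le_cat' (A b u t) t'
    have h3 := code_A_left b u t
    have h4 := code_A_right b u t
    have h5 : (A b u (cat t t')).code < N := h
    have h6 := code_A_right b u (cat t t')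
    refine hf 6 (by norm_num) _ (by omega) _ (by omega) _ h (Or.inr (Or.inr (Or.inr
      (Or.inr (Or.inr (Or.inr (Or.inr (Or.inl ⟨rfl, Or.inr (Or.inr ⟨u.code, by omega,
        t.code, by omega, (cat t t').code, by omega, ?_, ih (by omega)⟩)⟩))))))))
    have a1 := cAA hN hf (b := b) (u := u) (t := t) (by omega)
    have a2 := cAA hN hf (b := b) (u := u) (t := cat t t') h5
    cases b
    · exact Or.inl ⟨a1, a2⟩
    · exact Or.inr ⟨a1, a2⟩

omit hN in
theorem h7in {x y : ℕ} (hx : x < N) (hy : y < N) (hz : 0 < N) (h : rEq1 N w x y ∨ rEq2 N w x y ∨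
    rEq3 N w x y ∨ rEq4 N w x y ∨ rEq5 N w x y ∨ rEq6 N w x y ∨ rEq7 N w x y) :
    lk N w 7 x y 0 :=
  hf 7 (by norm_num) _ hx _ hy _ hz (Or.inr (Or.inr (Or.inr (Or.inr (Or.inr (Or.inr (Or.inr
    (Or.inr ⟨rfl, h⟩))))))))

theorem isD_dg (b : Bool) : isD (dg b) := by
  cases b
  · exact Or.inl rfl
  · exact Or.inr rfl

theorem dg_lt (b : Bool) : dg b < N := by
  cases b <;> simp only [dg] <;> omega

theorem closed {M : ℕ} (hM : 8 ^ M ≤ N) :
    Closed M (thr N) (fun t t' => lk N w 7 t.code t'.code 0) := by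
  have lt : ∀ t : Lt, t.sz ≤ M → t.code < N := by
    intro t ht
    have h1 := (code_bounds t).2
    have h2 : 8 ^ t.sz ≤ 8 ^ M := Nat.pow_le_pow_right (by norm_num) ht
    omega
  have N0 : 0 < N := by omega
  refine ⟨?_, ?_, ?_, ?_, ?_, ?_, ?_, ?_, ?_, ?_⟩
  · intro t ht
    have h1 := lt t ht
    have h2 := sz_le_code t
    exact h7in hf h1 h1 N0 (Or.inl (Or.inl ⟨rfl, t.sz, by omega, c3 hN hf t h1⟩))
  · intro t t' ht ht' h
    exact h7in hf (lt _ ht') (lt _ ht) N0 (Or.inl (Or.inr (Or.inl h)))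
  · intro t t' t'' ht ht' ht'' h h'
    exact h7in hf (lt _ ht) (lt _ ht'') N0 (Or.inl (Or.inr (Or.inr (Or.inl
      ⟨t'.code, lt _ ht', h, h'⟩))))
  · intro t t' ht ht' h
    have a1 := code_S_lt t
    have a2 := code_S_lt t'
    have a3 := lt _ ht
    have a4 := lt _ ht'
    exact h7in hf a3 a4 N0 (Or.inl (Or.inr (Or.inr (Or.inr
      ⟨t.code, by omega, t'.code, by omega, rfl, rfl, h⟩))))
  · intro b u u' t t' ht ht' h h'
    have a3 := lt _ ht
    have a4 := lt _ ht'
    have b1 := code_A_left b u t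
    have b2 := code_A_right b u t
    have b3 := code_A_left b u' t'
    have b4 := code_A_right b u' t'
    exact h7in hf a3 a4 N0 (Or.inr (Or.inl ⟨dg b, dg_lt hN hf b, u.code, by omega, u'.code,
      by omega, t.code, by omega, t'.code, by omega, isD_dg hN hf b, cAA hN hf a3,
      cAA hN hf a4, h, h'⟩))
  · intro b u t ht
    have a3 := lt _ ht
    have e : (A b u (S t)).sz = (S (A b u t)).sz := by
      simp only [sz]
      ring
    have a4 : (A b u (S t)).code < N := lt _ (by rw [e]; exact ht)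
    have b0 := code_S_lt (A b u t)
    have b1 := code_A_left b u t
    have b2 := code_A_right b u t
    have b3 := code_A_right b u (S t)
    exact h7in hf a3 a4 N0 (Or.inr (Or.inr (Or.inl ⟨dg b, dg_lt hN hf b, (A b u t).code,
      by omega, u.code, by omega, t.code, by omega, (S t).code, by omega, isD_dg hN hf b, rfl,
      cAA hN hf (by omega), cAA hN hf a4, rfl⟩)))
  · intro b b' u u' t ht
    have a3 := lt _ ht
    have e : (A b' u' (A b u t)).sz = (A b u (A b' u' t)).sz := by
      simp only [sz]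
      ring
    have a4 : (A b' u' (A b u t)).code < N := lt _ (by rw [e]; exact ht)
    have b1 := code_A_left b u (A b' u' t)
    have b2 := code_A_right b u (A b' u' t)
    have b3 := code_A_left b' u' t
    have b4 := code_A_right b' u' t
    have b5 := code_A_right b' u' (A b u t)
    exact h7in hf a3 a4 N0 (Or.inr (Or.inr (Or.inr (Or.inl ⟨dg b, dg_lt hN hf b, dg b',
      dg_lt hN hf b', u.code, by omega, u'.code, by omega, t.code, by omega,
      (A b' u' t).code, by omega, (A b u t).code, by omega, isD_dg hN hf b, isD_dg hN hf b',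
      cAA hN hf a3, cAA hN hf (by omega), cAA hN hf a4, cAA hN hf (by omega)⟩))))
  · intro u u' t ht h
    have a3 := lt _ ht
    have e : (A false (S u) t).sz ≤ M := by
      have := one_le_sz u'
      simp only [sz] at ht ⊢
      omega
    have a4 := lt _ e
    have b1 := code_A_left false u (A false u' t)
    have b2 := code_A_right false u (A false u' t)
    have b3 := code_A_left false u' t
    have b4 := code_A_right false u' t
    have b5 := code_A_left false (S u) t
    exact h7in hf a4 a3 N0 (Or.inr (Or.inr (Or.inr (Or.inr (Or.inl ⟨u.code, by omega, u'.code,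
      by omega, (S u).code, by omega, t.code, by omega, (A false u' t).code, by omega,
      cAA hN hf a4, rfl, cAA hN hf a3, cAA hN hf (by omega), h⟩)))))
  · intro u u' u'' t ht h h'
    have a3 := lt _ ht
    have e : (A true (S u) t).sz ≤ M := by
      have := one_le_sz u'
      simp only [sz] at ht ⊢
      omega
    have a4 := lt _ e
    have b1 := code_A_left true u (A true u' (A true u'' t))
    have b2 := code_A_right true u (A true u' (A true u'' t))
    have b3 := code_A_left true u' (A true u'' t)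
    have b4 := code_A_right true u' (A true u'' t)
    have b6 := code_A_left true u'' t
    have b7 := code_A_right true u'' t
    have b5 := code_A_left true (S u) t
    exact h7in hf a4 a3 N0 (Or.inr (Or.inr (Or.inr (Or.inr (Or.inr (Or.inl ⟨u.code, by omega,
      u'.code, by omega, u''.code, by omega, (S u).code, by omega, t.code, by omega,
      (A true u' (A true u'' t)).code, by omega, (A true u'' t).code, by omega,
      cAA hN hf a4, rfl, cAA hN hf a3, cAA hN hf (by omega), cAA hN hf (by omega), h,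
      h'⟩))))))
  · intro t t' ht ht' hs hs' hv
    have a3 := lt _ ht
    have a4 := lt _ ht'
    have s1 := sz_le_code t
    have s2 := sz_le_code t'
    refine h7in hf a3 a4 N0 (Or.inr (Or.inr (Or.inr (Or.inr (Or.inr (Or.inr
      ⟨⟨t.sz, by omega, c3 hN hf t a3⟩, ⟨t'.sz, by omega, c3 hN hf t' a4⟩, ?_⟩))))))
    intro m hmN hm
    have : t.val % m < m := Nat.mod_lt _ hm
    refine ⟨t.val % m, by omega, c5 hN hf t a3 hs m hm hmN, ?_⟩
    rw [hv]
    exact c5 hN hf t' a4 hs' m hm hmN

end fixed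

/-- The string `w` contains correct tables, for terms of size up to `σ` and the input `v`. -/
structure Good (σ N : ℕ) (w v : List Bool) : Prop where
  hN : 64 ≤ N
  hbig : 8 ^ (σ + 2 * σ * σ) ≤ N
  h0 : ∀ a < N, ∀ q < N, (lk N w 0 8 a q ↔ q = 8 ^ a)
  h3 : ∀ c < N, ∀ s < N, (lk N w 3 c s 0 ↔ ∃ t : Lt, t.code = c ∧ t.sz = s)
  h6 : ∀ x < N, ∀ y < N, ∀ z < N, (lk N w 6 x y z ↔
    ∃ t t' : Lt, t.code = x ∧ t'.code = y ∧ (cat t t').code = z)
  h7 : ∀ t t' : Lt, t.sz ≤ σ → t'.sz ≤ σ → (lk N w 7 t.code t'.code 0 ↔ t.val = t'.val)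
  h8 : ∀ x < N, (lk N w 8 x 0 0 ↔ v.getD x false = true)

theorem good_of_fix {σ N : ℕ} {w v : List Bool} (hN : 64 ≤ N) (hσ : 1 ≤ σ)
    (hbig : 8 ^ (σ + 2 * σ * σ) ≤ N) (hthr : 8 * 2 ^ (160000 * σ ^ 2) ≤ N)
    (hw : Snd N w v) (hfix : mkt N (step N w) = w) : Good σ N w v := by
  have hf : ∀ r < 9, ∀ x < N, ∀ y < N, ∀ z < N, step N w r x y z → lk N w r x y z := by
    intro r hr x hx y hy z hz h
    rw [← hfix]
    exact (lk_mkt hr hx hy hz).2 h
  have hcl := closed hN hf hbig
  have hN1 : 2 ^ (160000 * σ ^ 2) ≤ thr N := by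
    unfold thr
    omega
  refine ⟨hN, hbig, ?_, ?_, ?_, ?_, hw.h8⟩
  · intro a ha q hq
    constructor
    · exact hw.h0 _ (by omega) _ ha _ hq
    · rintro rfl
      exact c0 hN hf (by norm_num) (by omega) _ hq
  · intro c hc s hs
    constructor
    · exact hw.h3 _ hc _ hs _ (by omega)
    · rintro ⟨t, rfl, rfl⟩
      exact c3 hN hf t hc
  · intro x hx y hy z hz
    constructor
    · exact hw.h6 _ hx _ hy _ hz
    · rintro ⟨t, t', rfl, rfl, rfl⟩
      exact c6 hN hf t t' hz
  · intro t t' ht ht'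
    have lt : ∀ t : Lt, t.sz ≤ σ → t.code < N := by
      intro t ht
      have h1 := (code_bounds t).2
      have h2 : 8 ^ t.sz ≤ 8 ^ (σ + 2 * σ * σ) := Nat.pow_le_pow_right (by norm_num) (by omega)
      omega
    constructor
    · intro h
      obtain ⟨a, c, h1, h2, h3⟩ := hw.h7 _ (lt t ht) _ (lt t' ht') _ (by omega) h
      rw [← code_inj h1, ← code_inj h2]
      exact h3
    · intro h
      exact complete hσ rfl hcl hN1 ht ht' h

end AM21
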