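import Pool.Agent.AM21.Model

/-!
# The functions and the set of names are computable in polynomial time
-/

set_option autoImplicit false

namespace AM21

open BK21 Lt Pool.Agent.PTL PT21

theorem tup_cons' (x : List Bool) (l : List (List Bool)) :
    tup (x :: l) = (x.flatMap fun b => [true, b]) ++ false :: false :: tup l := by
  simp [tup]

theorem dbl_rep (n : ℕ) :
    ((List.replicate n true).flatMap fun b => [true, b]) = List.replicate (2 * n) true := by
  induction n with
  | zero => rfl
  | succ n ih =>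
    rw [List.replicate_succ, List.flatMap_cons, ih, show 2 * (n + 1) = 2 * n + 1 + 1 by ring,
      List.replicate_succ, List.replicate_succ]
    rfl

theorem tup_rep (n : ℕ) (l : List (List Bool)) :
    tup (List.replicate n true :: l) = List.replicate (2 * n) true ++ false :: false :: tup l := by
  rw [tup_cons', dbl_rep]

theorem unary_one (n : ℕ) (l : List (List Bool)) :
    Unary (tup (List.replicate n true :: l)) 0 (2 * n) := by
  have := unary_append [] (false :: tup l) (2 * n)
  rw [tup_rep]
  simpa using this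

theorem unary_two (n m : ℕ) (l : List (List Bool)) :
    Unary (tup (List.replicate n true :: List.replicate m true :: l)) (2 * n + 2) (2 * m) := by
  have := unary_append (List.replicate (2 * n) true ++ [false, false]) (false :: tup l) (2 * m)
  rw [tup_rep, tup_rep]
  simpa using this

section basic

variable {σ N : ℕ} {w v : List Bool}

theorem un_det (hw : Snd N w v) {p n m : ℕ} (hp : p + 2 * m < N) (hz : Unary v p (2 * m)) :
    Un N w p n ↔ n = m := by
  constructor
  · rintro ⟨h1, h2⟩
    rcases lt_trichotomy n m with h | h | h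
    · exact absurd ((hw.h8 _ (by omega)).2 (hz.1 (2 * n) (by omega))) h2
    · exact h
    · exact absurd ((hw.h8 _ hp).1 (h1 (2 * m) (by omega))) hz.2
  · rintro rfl
    exact (un_iff hw hp).2 hz

theorem nm_det (hg : Good σ N w v) {t : Lt} {c s : ℕ} (hc : c < N) (hs : s < N)
    (ht : tl t < N) : Nm N w (tl t) c s ↔ c = t.code ∧ s = t.sz := by
  rw [nm_iff hg hc hs]
  constructor
  · rintro ⟨t', rfl, rfl, h, -⟩
    rw [tl_inj h]
    exact ⟨rfl, rfl⟩
  · rintro ⟨rfl, rfl⟩
    exact ⟨t, rfl, rfl, rfl, by unfold tl at ht; omega⟩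

/-- Target of the successor. -/
def TgS (N : ℕ) (w : List Bool) (d : ℕ) : Prop :=
  ∃ n < N, ∃ c < N, ∃ s < N, Un N w 0 n ∧ Nm N w n c s ∧ d = 2 + 8 * c

/-- Target of an exponential. -/
def TgE (g N : ℕ) (w : List Bool) (d : ℕ) : Prop :=
  ∃ n < N, ∃ c < N, ∃ s < N, ∃ q < N, Un N w 0 n ∧ Nm N w n c s ∧ lk N w 0 8 s q ∧
    d = g + 8 * (c + q)

/-- Target of the addition. -/
def TgP (N : ℕ) (w : List Bool) (d : ℕ) : Prop :=
  ∃ n < N, ∃ c < N, ∃ s < N, ∃ n' < N, ∃ c' < N, ∃ s' < N, Un N w 0 n ∧ Nm N w n c s ∧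
    Un N w (2 * n + 2) n' ∧ Nm N w n' c' s' ∧ lk N w 6 c c' d

theorem isT_TgS (k : ℕ) (N d : (ℕ → ℕ) → ℕ) (hN : IsE k N) (hd : IsE k d) :
    IsT k (fun w env => TgS (N env) w (d env)) := by
  unfold TgS
  repeat' first
    | exact IsE.const _
    | (refine IsE.mono ?_ (by assumption); omega)
    | apply isT_lk
    | apply isT_Un
    | apply isT_Nm
    | apply isT_Mn
    | (refine IsT.ex ?_ (fun _ _ _ _ => ?_))
    | (refine IsT.all ?_ (fun _ _ _ _ => ?_))
    | apply IsT.and
    | apply IsT.or
    | apply IsT.not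
    | apply IsT.imp
    | apply IsT.eq
    | apply IsT.lt
    | apply IsE.add
    | apply IsE.mul

theorem isT_TgE (g k : ℕ) (N d : (ℕ → ℕ) → ℕ) (hN : IsE k N) (hd : IsE k d) :
    IsT k (fun w env => TgE g (N env) w (d env)) := by
  unfold TgE
  repeat' first
    | exact IsE.const _
    | (refine IsE.mono ?_ (by assumption); omega)
    | apply isT_lk
    | apply isT_Un
    | apply isT_Nm
    | apply isT_Mn
    | (refine IsT.ex ?_ (fun _ _ _ _ => ?_))
    | (refine IsT.all ?_ (fun _ _ _ _ => ?_))
    | apply IsT.and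
    | apply IsT.or
    | apply IsT.not
    | apply IsT.imp
    | apply IsT.eq
    | apply IsT.lt
    | apply IsE.add
    | apply IsE.mul

theorem isT_TgP (k : ℕ) (N d : (ℕ → ℕ) → ℕ) (hN : IsE k N) (hd : IsE k d) :
    IsT k (fun w env => TgP (N env) w (d env)) := by
  unfold TgP
  repeat' first
    | exact IsE.const _
    | (refine IsE.mono ?_ (by assumption); omega)
    | apply isT_lk
    | apply isT_Un
    | apply isT_Nm
    | apply isT_Mn
    | (refine IsT.ex ?_ (fun _ _ _ _ => ?_))
    | (refine IsT.all ?_ (fun _ _ _ _ => ?_))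
    | apply IsT.and
    | apply IsT.or
    | apply IsT.not
    | apply IsT.imp
    | apply IsT.eq
    | apply IsT.lt
    | apply IsE.add
    | apply IsE.mul

end basic

theorem length_one (n : ℕ) : (tup [List.replicate n true]).length = 2 * n + 2 := by
  rw [tup_rep]
  simp [tup]

theorem length_two (n m : ℕ) :
    (tup [List.replicate n true, List.replicate m true]).length = 2 * n + 2 * m + 4 := by
  rw [tup_rep, tup_rep]
  simp [tup]
  ring

theorem le_pow_self' {L K : ℕ} (hL : 1 ≤ L) (hK : 1 ≤ K) : L ≤ L ^ K :=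
  Nat.le_self_pow (by omega) L

/-- A function of one argument is computable in polynomial time. -/
theorem pFun_of {f : ℕ → ℕ} {Tg : ℕ → List Bool → ℕ → Prop}
    (hTg : ∀ k (N d : (ℕ → ℕ) → ℕ), IsE k N → IsE k d →
      IsT k (fun w env => Tg (N env) w (d env)))
    (T : Lt → Lt) (hT : ∀ t, (T t).sz ≤ 2 * t.sz + 1) (hf : ∀ t, (T t).val = f t.val)
    (h : ∀ (σ N : ℕ) (w v : List Bool) (t : Lt), Snd N w v → Good σ N w v → t.sz ≤ σ →
      (T t).sz ≤ σ → 2 * tl t < N → Unary v 0 (2 * tl t) → ∀ d < N, Tg N w d ↔ d = (T t).code) :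
    PFun nu (r := 1) (fun x => f (x 0)) := by
  obtain ⟨K, hK⟩ : ∃ K, K = 480001 := ⟨_, rfl⟩
  obtain ⟨g, hg, hg'⟩ := frame (K := K) (by omega)
    (F := fun w N => out N w (Tg N w)) (fun k N hN => isP_out hN hTg)
  refine ⟨g, hg.polyTime, fun x => ?_⟩
  have e : (List.ofFn fun i => nu (x i)) = [nu (x 0)] := by simp
  rw [e]
  obtain ⟨w, h1, h2, h3⟩ := hg' (tup [nu (x 0)])
  rw [h3]
  obtain ⟨t, ht⟩ : ∃ t, t = can (x 0) := ⟨_, rfl⟩
  have hz : tup [nu (x 0)] = tup [List.replicate (tl t) true] := by rw [ht, nu]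
  rw [hz] at h1 h2 ⊢
  set z := tup [List.replicate (tl t) true] with hzdef
  have hlen : z.length = 2 * tl t + 2 := length_one _
  obtain ⟨N, hN⟩ : ∃ N, N = (z.length + 3) ^ K := ⟨_, rfl⟩
  have hLN : z.length + 3 ≤ N := by
    rw [hN]
    exact le_pow_self' (by omega) (by omega)
  have h8 : 8 ^ (t.sz * t.sz) ≤ z.length + 3 := by
    rw [hlen]
    unfold tl
    omega
  obtain ⟨n1, n2, n3⟩ := nums (σ := 2 * t.sz + 1) (one_le_sz t) le_rfl h8
    (by omega : 480001 ≤ K)
  rw [← hN] at h1 h2 n1 n2 n3 ⊢
  have h64 : 64 ≤ N := by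
    have : 8 ^ 2 ≤ 8 ^ (2 * t.sz + 1 + 2 * (2 * t.sz + 1) * (2 * t.sz + 1)) := by
      apply Nat.pow_le_pow_right (by norm_num)
      have := one_le_sz t
      omega
    omega
  have hgood := good_of_fix (σ := 2 * t.sz + 1) h64 (by omega) n1 n2 h1 h2
  rw [out_eq h1 hgood (hT t) n3 (h _ _ _ _ t h1 hgood (by omega) (hT t) (by omega)
    (unary_one _ _)), hf, ht, val_can]

theorem pFun_succ : PFun nu (r := 1) (fun x => x 0 + 1) := by
  refine pFun_of (f := fun n => n + 1) isT_TgS (fun t => S t)
    (fun t => by simp only [sz]; have := one_le_sz t; omega) (fun t => rfl) ?_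
  intro σ N w v t hw hg ht hT htl hv d hd
  have hc := lt_of_good hg ht
  have hs := sz_le_code t
  unfold TgS
  constructor
  · rintro ⟨n, hn, c, hc', s, hs', h1, h2, rfl⟩
    rw [un_det hw (by omega) hv] at h1
    subst h1
    rw [nm_det hg hc' hs' (by omega)] at h2
    rw [h2.1]
    rfl
  · rintro rfl
    exact ⟨tl t, by omega, t.code, hc, t.sz, by omega, (un_det hw (by omega) hv).2 rfl,
      (nm_det hg hc (by omega) (by omega)).2 ⟨rfl, rfl⟩, rfl⟩

theorem pFun_exp (b : Bool) : PFun nu (r := 1) (fun x => bas b ^ x 0) := by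
  refine pFun_of (f := fun n => bas b ^ n) (isT_TgE (dg b)) (fun t => A b t Z)
    (fun t => by simp only [sz]; have := one_le_sz t; omega) (fun t => by simp [val]) ?_
  intro σ N w v t hw hg ht hT htl hv d hd
  have hc := lt_of_good hg ht
  have hs := sz_le_code t
  have hN := hg.hN
  have hq : 8 ^ t.sz < N := by
    have h1 : 8 ^ (t.sz + 1) ≤ 8 ^ (σ + 2 * σ * σ) := by
      apply Nat.pow_le_pow_right (by norm_num)
      have := one_le_sz t
      nlinarith
    have h2 := hg.hbig
    have h3 : 0 < 8 ^ t.sz := by positivity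
    rw [pow_succ] at h1
    omega
  have e : (A b t Z).code = dg b + 8 * (t.code + 8 ^ t.sz) := by simp [code]
  unfold TgE
  rw [e]
  constructor
  · rintro ⟨n, hn, c, hc', s, hs', q, hq', h1, h2, h3, rfl⟩
    rw [un_det hw (by omega) hv] at h1
    subst h1
    rw [nm_det hg hc' hs' (by omega)] at h2
    obtain ⟨rfl, rfl⟩ := h2
    rw [(hg.h0 _ hs' _ hq').1 h3]
  · rintro rfl
    exact ⟨tl t, by omega, t.code, hc, t.sz, by omega, 8 ^ t.sz, hq,
      (un_det hw (by omega) hv).2 rfl, (nm_det hg hc (by omega) (by omega)).2 ⟨rfl, rfl⟩,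
      (hg.h0 _ (by omega) _ hq).2 rfl, rfl⟩

theorem pFun_exp2 : PFun nu (r := 1) (fun x => 2 ^ x 0) := pFun_exp false

theorem pFun_exp3 : PFun nu (r := 1) (fun x => 3 ^ x 0) := pFun_exp true

theorem pFun_add : PFun nu (r := 2) (fun x => x 0 + x 1) := by
  obtain ⟨K, hK⟩ : ∃ K, K = 480001 := ⟨_, rfl⟩
  obtain ⟨g, hg, hg'⟩ := frame (K := K) (by omega)
    (F := fun w N => out N w (TgP N w)) (fun k N hN => isP_out hN isT_TgP)
  refine ⟨g, hg.polyTime, fun x => ?_⟩
  have e : (List.ofFn fun i => nu (x i)) = [nu (x 0), nu (x 1)] := by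
    simp [List.ofFn_succ]
  rw [e]
  obtain ⟨w, h1, h2, h3⟩ := hg' (tup [nu (x 0), nu (x 1)])
  rw [h3]
  obtain ⟨t, ht⟩ : ∃ t, t = can (x 0) := ⟨_, rfl⟩
  obtain ⟨u, hu⟩ : ∃ u, u = can (x 1) := ⟨_, rfl⟩
  have hz : tup [nu (x 0), nu (x 1)] =
      tup [List.replicate (tl t) true, List.replicate (tl u) true] := by rw [ht, hu, nu, nu]
  rw [hz] at h1 h2 ⊢
  set z := tup [List.replicate (tl t) true, List.replicate (tl u) true] with hzdef
  have hlen : z.length = 2 * tl t + 2 * tl u + 4 := length_two _ _
  obtain ⟨N, hN⟩ : ∃ N, N = (z.length + 3) ^ K := ⟨_, rfl⟩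
  have hLN : z.length + 3 ≤ N := by
    rw [hN]
    exact le_pow_self' (by omega) (by omega)
  obtain ⟨s, hs⟩ : ∃ s, s = max t.sz u.sz := ⟨_, rfl⟩
  have hs1 : 1 ≤ s := by
    have := one_le_sz t
    omega
  have h8 : 8 ^ (s * s) ≤ z.length + 3 := by
    rw [hlen]
    rcases max_choice t.sz u.sz with h | h
    · rw [hs, h]
      unfold tl
      omega
    · rw [hs, h]
      unfold tl
      omega
  obtain ⟨n1, n2, n3⟩ := nums (σ := 2 * s + 1) hs1 le_rfl h8 (by omega : 480001 ≤ K)
  rw [← hN] at h1 h2 n1 n2 n3 ⊢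
  have h64 : 64 ≤ N := by
    have : 8 ^ 2 ≤ 8 ^ (2 * s + 1 + 2 * (2 * s + 1) * (2 * s + 1)) := by
      apply Nat.pow_le_pow_right (by norm_num)
      omega
    omega
  have hgood := good_of_fix (σ := 2 * s + 1) h64 (by omega) n1 n2 h1 h2
  have hT : (cat t u).sz ≤ 2 * s + 1 := by
    have := sz_cat t u
    omega
  have hv1 : Unary z 0 (2 * tl t) := unary_one _ _
  have hv2 : Unary z (2 * tl t + 2) (2 * tl u) := unary_two _ _ _
  have ct := lt_of_good hgood (t := t) (by omega)
  have cu := lt_of_good hgood (t := u) (by omega)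
  have st := sz_le_code t
  have su := sz_le_code u
  have hTN := lt_of_good hgood hT
  rw [out_eq (T := cat t u) h1 hgood hT n3 ?_, val_cat, ht, hu, val_can, val_can]
  intro d hd
  unfold TgP
  constructor
  · rintro ⟨n, hn, c, hc, r, hr, n', hn', c', hc', r', hr', a1, a2, a3, a4, a5⟩
    rw [un_det h1 (by omega) hv1] at a1
    subst a1
    rw [un_det h1 (by omega) hv2] at a3
    subst a3
    rw [nm_det hgood hc hr (by omega)] at a2
    rw [nm_det hgood hc' hr' (by omega)] at a4
    obtain ⟨rfl, rfl⟩ := a2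
    obtain ⟨rfl, rfl⟩ := a4
    obtain ⟨p, q, p1, p2, p3⟩ := (hgood.h6 _ hc _ hc' _ hd).1 a5
    rw [← p3, code_inj p1, code_inj p2]
  · rintro rfl
    exact ⟨tl t, by omega, t.code, ct, t.sz, by omega, tl u, by omega, u.code, cu, u.sz,
      by omega, (un_det h1 (by omega) hv1).2 rfl,
      (nm_det hgood ct (by omega) (by omega)).2 ⟨rfl, rfl⟩, (un_det h1 (by omega) hv2).2 rfl,
      (nm_det hgood cu (by omega) (by omega)).2 ⟨rfl, rfl⟩,
      (hgood.h6 _ ct _ cu _ hTN).2 ⟨t, u, rfl, rfl, rfl⟩⟩

/-- The string code of a tuple with one element. -/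
theorem ptc_tup : PTC (fun x => tup [x]) := by
  have h := PTC.of (F := fun w L => ((List.range L).flatMap fun i =>
    [true] ++ cif (w.getD i false = true) [true] [false]) ++ ([false] ++ [false])) fun k L hL =>
      (IsP.loop (G := fun w _ i => [true] ++ cif (w.getD i false = true) [true] [false]) hL
        fun k' _ y hy => (IsP.emit true).append
          (isP_cif (IsT.bit hy) (IsP.emit true) (IsP.emit false))).append
        ((IsP.emit false).append (IsP.emit false))
  refine h.congr fun x => ?_
  have key : ∀ x : List Bool, (x.flatMap fun b => [true, b]) =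
      (List.range x.length).flatMap fun i => [true] ++ cif (x.getD i false = true) [true]
        [false] := by
    intro x
    induction x with
    | nil => rfl
    | cons b x ih =>
      rw [List.flatMap_cons, List.length_cons, List.range_succ_eq_map, List.flatMap_cons,
        List.flatMap_map, ih]
      have e : [true, b] = [true] ++ cif ((b :: x).getD 0 false = true) [true] [false] := by
        cases b with
        | true => rw [cif_pos (show (true :: x).getD 0 false = true from rfl)]; rfl
        | false => rw [cif_neg (by simp)]; rfl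
      rw [e]
      rfl
  rw [tup_cons', key]
  rfl

/-- The set of strings of ones, seen in the code. -/
theorem ones_of_un {N : ℕ} {w x : List Bool} (hw : Snd N w (tup [x]))
    (hN : (tup [x]).length < N) {n : ℕ} (h : Un N w 0 n) : x = List.replicate n true := by
  have hz : tup [x] = (x.flatMap fun b => [true, b]) ++ [false, false] := by
    simp [tup]
  have hl : ∀ x : List Bool, (x.flatMap fun b => [true, b]).length = 2 * x.length := by
    intro x
    induction x with
    | nil => rfl
    | cons b x ih =>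
      rw [List.flatMap_cons, List.length_append, ih]
      simp
      ring
  have hev : ∀ (x : List Bool) (i : ℕ), i < x.length →
      (x.flatMap fun b => [true, b]).getD (2 * i) false = true := by
    intro x
    induction x with
    | nil => intro i hi; simp at hi
    | cons b x ih =>
      intro i hi
      cases i with
      | zero => rfl
      | succ i =>
        rw [List.flatMap_cons, show 2 * (i + 1) = 2 * i + 1 + 1 by ring]
        simp only [List.cons_append, List.nil_append, List.getD_cons_succ]
        exact ih i (by simpa using hi)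
  have hod : ∀ (x : List Bool) (i : ℕ), i < x.length →
      (x.flatMap fun b => [true, b]).getD (2 * i + 1) false = x.getD i false := by
    intro x
    induction x with
    | nil => intro i hi; simp at hi
    | cons b x ih =>
      intro i hi
      cases i with
      | zero => rfl
      | succ i =>
        rw [List.flatMap_cons, show 2 * (i + 1) + 1 = 2 * i + 1 + 1 + 1 by ring]
        simp only [List.cons_append, List.nil_append, List.getD_cons_succ]
        exact ih i (by simpa using hi)
  have hlen : (tup [x]).length = 2 * x.length + 2 := by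
    rw [hz, List.length_append, hl]
    rfl
  obtain ⟨h1, h2⟩ := h
  rw [zero_add] at h2
  have hend : (tup [x]).getD (2 * x.length) false = false := by
    rw [hz, List.getD_append_right _ _ _ _ (by rw [hl]), hl]
    simp
  have hn : n = x.length := by
    rcases lt_trichotomy n x.length with h | h | h
    · exfalso
      apply h2
      rw [hw.h8 _ (by omega), hz, List.getD_append _ _ _ _ (by rw [hl]; omega)]
      exact hev x n h
    · exact h
    · have h3 := h1 (2 * x.length) (by omega)
      rw [zero_add, hw.h8 _ (by omega), hend] at h3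
      exact absurd h3 (by simp)
  rw [hn]
  apply List.eq_replicate_of_mem
  intro b hb
  obtain ⟨i, hi, rfl⟩ := List.getElem_of_mem hb
  have h3 := h1 (2 * i + 1) (by omega)
  rw [zero_add, hw.h8 _ (by omega), hz, List.getD_append _ _ _ _ (by rw [hl]; omega), hod x i hi,
    List.getD_eq_getElem _ _ hi] at h3
  exact h3

/-- The set of names is decidable in polynomial time. -/
theorem pSet_range : PSet (Set.range nu) := by
  obtain ⟨K, hK⟩ : ∃ K, K = 480001 := ⟨_, rfl⟩
  obtain ⟨f, hf, hf'⟩ := frame (K := K) (by omega)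
    (F := fun w N => cif (∃ n < N, ∃ c < N, ∃ s < N, Un N w 0 n ∧ Nm N w n c s ∧ Mn N w c c)
      [true] [false]) (by
      intro k N hN
      refine isP_cif ?_ (IsP.emit true) (IsP.emit false)
      repeat' first
        | exact IsE.const _
        | (refine IsE.mono ?_ (by assumption); omega)
        | apply isT_lk
        | apply isT_Un
        | apply isT_Nm
        | apply isT_Mn
        | (refine IsT.ex ?_ (fun _ _ _ _ => ?_))
        | (refine IsT.all ?_ (fun _ _ _ _ => ?_))
        | apply IsT.and
        | apply IsT.or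
        | apply IsT.not
        | apply IsT.imp
        | apply IsT.eq
        | apply IsT.lt
        | apply IsE.add
        | apply IsE.mul)
  refine ⟨fun x => f (tup [x]), (hf.comp ptc_tup).polyTime, fun x => ?_⟩
  obtain ⟨w, h1, h2, h3⟩ := hf' (tup [x])
  beta_reduce
  rw [h3]
  set z := tup [x] with hz
  obtain ⟨N, hN⟩ : ∃ N, N = (z.length + 3) ^ K := ⟨_, rfl⟩
  have hLN : z.length + 3 ≤ N := by
    rw [hN]
    exact le_pow_self' (by omega) (by omega)
  rw [← hN] at h1 h2 ⊢
  -- the tables are good for every size that can occur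
  have good : ∀ t : Lt, tl t ≤ z.length → Good t.sz N w z := by
    intro t ht
    have h8 : 8 ^ (t.sz * t.sz) ≤ z.length + 3 := by
      unfold tl at ht
      omega
    obtain ⟨n1, n2, n3⟩ := nums (σ := t.sz) (one_le_sz t) (by omega) h8
      (by omega : 480001 ≤ K)
    rw [← hN] at n1 n2 n3
    have h64 : 64 ≤ N := by
      have hLK : 3 ^ 4 ≤ (z.length + 3) ^ K := by
        calc 3 ^ 4 ≤ (z.length + 3) ^ 4 := Nat.pow_le_pow_left (by omega) 4
          _ ≤ (z.length + 3) ^ K := Nat.pow_le_pow_right (by omega) (by omega)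
      rw [← hN] at hLK
      omega
    exact good_of_fix h64 (one_le_sz t) n1 n2 h1 h2
  have hmain : (∃ n < N, ∃ c < N, ∃ s < N, Un N w 0 n ∧ Nm N w n c s ∧ Mn N w c c) ↔
      x ∈ Set.range nu := by
    constructor
    · rintro ⟨n, hn, c, hc, s, hs, a1, a2, a3⟩
      have hx := ones_of_un h1 (by rw [← hz]; omega) a1
      have hlen : z.length = 2 * n + 2 := by
        rw [hz, hx]
        exact length_one n
      have g0 := good Z
      -- a first use of the tables to find the term
      obtain ⟨m, hm, q, hq, hmq, b1, b2, b3⟩ := a2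
      obtain ⟨t, t1, t2⟩ := h1.h3 _ hc _ hs _ (by omega) b2
      have b4 := h1.h0 _ (by
        have hLK : 3 ^ 4 ≤ (z.length + 3) ^ K := by
          calc 3 ^ 4 ≤ (z.length + 3) ^ 4 := Nat.pow_le_pow_left (by omega) 4
            _ ≤ (z.length + 3) ^ K := Nat.pow_le_pow_right (by omega) (by omega)
        rw [← hN] at hLK
        omega) _ hm _ hq b1
      have hnt : n = tl t := by rw [tl, t1, t2, b3, b4, hmq]
      have hg := good t (by omega)
      rw [← t1] at a3
      rw [mn_iff h1 hg le_rfl (by omega)] at a3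
      exact ⟨t.val, by rw [nu, ← a3, ← hnt, hx]⟩
    · rintro ⟨k, hk⟩
      have hx : x = List.replicate (tl (can k)) true := hk.symm
      have hlen : z.length = 2 * tl (can k) + 2 := by
        rw [hz, hx]
        exact length_one _
      have hg := good (can k) (by omega)
      have hv : Unary z 0 (2 * tl (can k)) := by
        rw [hz, hx]
        exact unary_one _ _
      have hc := lt_of_good hg (t := can k) le_rfl
      have hs := sz_le_code (can k)
      refine ⟨tl (can k), by omega, (can k).code, hc, (can k).sz, by omega,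
        (un_det h1 (by omega) hv).2 rfl, (nm_det hg hc (by omega) (by omega)).2 ⟨rfl, rfl⟩, ?_⟩
      rw [mn_iff h1 hg le_rfl hc, val_can]
  constructor
  · intro h
    rw [cif_pos (hmain.2 h)]
  · intro h
    rw [cif_neg (fun h' => h (hmain.1 h'))]

end AM21
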