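import Pool.Agent.AM21.Fixed
import Pool.Agent.PTL.Box

/-!
# The model
-/

set_option autoImplicit false

namespace AM21

open BK21 Lt Pool.Agent.PTL PT21

/-- Programs may use the tables. -/
theorem frame {K : ℕ} (hK : 4 ≤ K) {F : List Bool → ℕ → List Bool}
    (hF : ∀ k N, IsE k N → IsP k (fun w env => F w (N env))) :
    ∃ f, PTC f ∧ ∀ z : List Bool, ∃ w, Snd ((z.length + 3) ^ K) w z ∧
      mkt ((z.length + 3) ^ K) (step ((z.length + 3) ^ K) w) = w ∧
      f z = F w ((z.length + 3) ^ K) := by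
  classical
  have h₀ : PTC (fun z => mkt ((z.length + 3) ^ K) (init z)) := by
    refine PTC.of (F := fun z L => mkt ((L + 3) ^ K) (init z)) fun k L hL => ?_
    refine (IsP.tbl [fun _ => 9, fun env => (L env + 3) ^ K, fun env => (L env + 3) ^ K,
      fun env => (L env + 3) ^ K] k
      (by simp [IsE.const, (hL.add (IsE.const 3)).pow K])
      (φ := fun w _ l => app4 (init w) l) fun k' hk ys hys hy => ?_)
    match ys, hys with
    | [y1, y2, y3, y4], _ =>
      exact isT_init (hy _ (by simp)) (hy _ (by simp)) (hy _ (by simp)) (hy _ (by simp))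
  obtain ⟨H, h₁, h₁'⟩ := exists_fix (ψ := step)
    (fun k N r x y z hN hr hx hy hz => isT_step hN hr hx hy hz) (fun _ _ _ _ _ _ h => Or.inl h)
  obtain ⟨f₂, h₂, h₂', -⟩ := PTC.ofLen isE_len len_mono hF
  refine ⟨_, h₂.comp (h₁.comp h₀), fun z => ?_⟩
  have hN : 64 ≤ (z.length + 3) ^ K := by
    calc 64 ≤ 3 ^ 4 := by norm_num
      _ ≤ (z.length + 3) ^ 4 := Nat.pow_le_pow_left (by omega) 4
      _ ≤ (z.length + 3) ^ K := Nat.pow_le_pow_right (by omega) hK
  obtain ⟨n, x, hx0, hx1, hx2, hx3⟩ := h₁' ((z.length + 3) ^ K) (init z)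
  have hsound : ∀ i, Snd ((z.length + 3) ^ K) (x i) z := by
    intro i
    induction i with
    | zero =>
      rw [hx0]
      exact snd_init hN
    | succ i ih =>
      rw [hx1]
      exact ih.step hN
  have hlen : (x n).length = len ((z.length + 3) ^ K) := by
    cases n with
    | zero => rw [hx0, mkt_length]
    | succ i => rw [hx1, mkt_length]
  refine ⟨x n, hsound n, by rw [← hx1, hx3], ?_⟩
  rw [hx2, h₂' (x n) _ hlen]

open Classical in
/-- Conditional string. -/
noncomputable def cif (a : Prop) (x y : List Bool) : List Bool := if a then x else y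

theorem cif_pos {a : Prop} {x y : List Bool} (h : a) : cif a x y = x := if_pos h

theorem cif_neg {a : Prop} {x y : List Bool} (h : ¬ a) : cif a x y = y := if_neg h

theorem isP_cif {k : ℕ} {φ : List Bool → (ℕ → ℕ) → Prop}
    {F G : List Bool → (ℕ → ℕ) → List Bool} (hφ : IsT k φ) (h : IsP k F) (h' : IsP k G) :
    IsP k (fun w env => cif (φ w env) (F w env) (G w env)) := IsP.ite hφ h h'

section formulas

variable (N : ℕ) (w : List Bool)

/-- The input has `2 n` ones from position `p` on. -/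
def Un (p n : ℕ) : Prop := (∀ i < 2 * n, lk N w 8 (p + i) 0 0) ∧ ¬ lk N w 8 (p + 2 * n) 0 0

/-- `n` is the length of the name attached to the code `c` of size `s`. -/
def Nm (n c s : ℕ) : Prop :=
  ∃ m < N, ∃ q < N, m = s * s ∧ lk N w 0 8 m q ∧ lk N w 3 c s 0 ∧ n = q + c

/-- `c` is the least code equal to `d`. -/
def Mn (c d : ℕ) : Prop :=
  lk N w 7 c d 0 ∧ ∀ c' < c, ∀ s < N, lk N w 3 c' s 0 → ¬ lk N w 7 c' d 0

/-- Output condition. -/
def Oc (Tg : ℕ → Prop) (i : ℕ) : Prop :=
  ∃ d < N, Tg d ∧ ∃ c < N, ∃ s < N, ∃ n < N + N, Nm N w n c s ∧ Mn N w c d ∧ i < n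

/-- Output. -/
noncomputable def out (Tg : ℕ → Prop) : List Bool :=
  (List.range N).flatMap fun i => cif (Oc N w Tg i) [true] []

end formulas

section tests

variable {k : ℕ} {N p n c s d i : (ℕ → ℕ) → ℕ}

theorem isT_Un (hN : IsE k N) (hp : IsE k p) (hn : IsE k n) :
    IsT k (fun w env => Un (N env) w (p env) (n env)) := by
  unfold Un
  repeat' first
    | exact IsE.const _
    | (refine IsE.mono ?_ (by assumption); omega)
    | apply isT_lk
    | apply isT_AA
    | apply isT_SS
    | (refine IsT.ex ?_ (fun _ _ _ _ => ?_))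
    | (refine IsT.all ?_ (fun _ _ _ _ => ?_))
    | apply IsT.and
    | apply IsT.or
    | apply IsT.not
    | apply IsT.imp
    | apply IsT.eq
    | apply IsT.lt
    | apply IsE.add
    | apply IsE.mul

theorem isT_Nm (hN : IsE k N) (hn : IsE k n) (hc : IsE k c) (hs : IsE k s) :
    IsT k (fun w env => Nm (N env) w (n env) (c env) (s env)) := by
  unfold Nm
  repeat' first
    | exact IsE.const _
    | (refine IsE.mono ?_ (by assumption); omega)
    | apply isT_lk
    | apply isT_AA
    | apply isT_SS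
    | (refine IsT.ex ?_ (fun _ _ _ _ => ?_))
    | (refine IsT.all ?_ (fun _ _ _ _ => ?_))
    | apply IsT.and
    | apply IsT.or
    | apply IsT.not
    | apply IsT.imp
    | apply IsT.eq
    | apply IsT.lt
    | apply IsE.add
    | apply IsE.mul

theorem isT_Mn (hN : IsE k N) (hc : IsE k c) (hd : IsE k d) :
    IsT k (fun w env => Mn (N env) w (c env) (d env)) := by
  unfold Mn
  repeat' first
    | exact IsE.const _
    | (refine IsE.mono ?_ (by assumption); omega)
    | apply isT_lk
    | apply isT_AA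
    | apply isT_SS
    | (refine IsT.ex ?_ (fun _ _ _ _ => ?_))
    | (refine IsT.all ?_ (fun _ _ _ _ => ?_))
    | apply IsT.and
    | apply IsT.or
    | apply IsT.not
    | apply IsT.imp
    | apply IsT.eq
    | apply IsT.lt
    | apply IsE.add
    | apply IsE.mul

theorem isT_Oc (hN : IsE k N) {Tg : ℕ → List Bool → ℕ → Prop}
    (hTg : ∀ k (N d : (ℕ → ℕ) → ℕ), IsE k N → IsE k d → IsT k (fun w env => Tg (N env) w (d env)))
    (hi : IsE k i) : IsT k (fun w env => Oc (N env) w (Tg (N env) w) (i env)) := by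
  refine IsT.ex hN fun k₁ h₁ d hd => ?_
  refine (hTg k₁ N d (hN.mono h₁) hd).and ?_
  refine IsT.ex (hN.mono h₁) fun k₂ h₂ c hc => ?_
  refine IsT.ex (hN.mono (h₁.trans h₂)) fun k₃ h₃ s hs => ?_
  have hN₃ := hN.mono ((h₁.trans h₂).trans h₃)
  refine IsT.ex (hN₃.add hN₃) fun k₄ h₄ n hn => ?_
  exact (isT_Nm (hN₃.mono h₄) hn (hc.mono (h₃.trans h₄)) (hs.mono h₄)).and
    ((isT_Mn (hN₃.mono h₄) (hc.mono (h₃.trans h₄)) (hd.mono ((h₂.trans h₃).trans h₄))).and
      (IsT.lt (hi.mono (((h₁.trans h₂).trans h₃).trans h₄)) hn))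

theorem isP_out (hN : IsE k N) {Tg : ℕ → List Bool → ℕ → Prop}
    (hTg : ∀ k (N d : (ℕ → ℕ) → ℕ), IsE k N → IsE k d →
      IsT k (fun w env => Tg (N env) w (d env))) :
    IsP k (fun w env => out (N env) w (Tg (N env) w)) := by
  refine IsP.loop (G := fun w env i => cif (Oc (N env) w (Tg (N env) w) i) [true] []) hN
    fun k' hk i hi => ?_
  exact isP_cif (isT_Oc (hN.mono hk) hTg hi) (IsP.emit true) IsP.nil

end tests

section meaning

variable {σ N : ℕ} {w v : List Bool}

theorem un_iff (hw : Snd N w v) {p n : ℕ} (h : p + 2 * n < N) :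
    Un N w p n ↔ Unary v p (2 * n) := by
  unfold Un Unary
  rw [hw.h8 _ h]
  constructor
  · rintro ⟨h1, h2⟩
    exact ⟨fun i hi => (hw.h8 _ (by omega)).1 (h1 i hi), h2⟩
  · rintro ⟨h1, h2⟩
    exact ⟨fun i hi => (hw.h8 _ (by omega)).2 (h1 i hi), h2⟩

theorem nm_iff (hg : Good σ N w v) {n c s : ℕ} (hc : c < N) (hs : s < N) :
    Nm N w n c s ↔ ∃ t : Lt, t.code = c ∧ t.sz = s ∧ n = tl t ∧ 8 ^ (t.sz * t.sz) < N := by
  constructor
  · rintro ⟨m, hm, q, hq, rfl, h1, h2, rfl⟩
    obtain ⟨t, t1, t2⟩ := (hg.h3 _ hc _ hs).1 h2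
    rw [hg.h0 _ hm _ hq] at h1
    exact ⟨t, t1, t2, by rw [tl, t1, t2, h1], by rw [t2, ← h1]; exact hq⟩
  · rintro ⟨t, rfl, rfl, rfl, hq⟩
    have h1 : t.sz * t.sz < 8 ^ (t.sz * t.sz) := Nat.lt_pow_self (by norm_num)
    exact ⟨t.sz * t.sz, by omega, 8 ^ (t.sz * t.sz), hq, rfl,
      (hg.h0 _ (by omega) _ hq).2 rfl, (hg.h3 _ hc _ hs).2 ⟨t, rfl, rfl⟩, rfl⟩

theorem lt_of_good (hg : Good σ N w v) {t : Lt} (ht : t.sz ≤ σ) : t.code < N := by
  have h1 := (code_bounds t).2
  have h2 : 8 ^ t.sz ≤ 8 ^ (σ + 2 * σ * σ) := Nat.pow_le_pow_right (by norm_num) (by omega)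
  have := hg.hbig
  omega

/-- Least codes. -/
theorem mn_iff (hw : Snd N w v) (hg : Good σ N w v) {t T : Lt} (hT : T.sz ≤ σ)
    (ht : t.code < N) : Mn N w t.code T.code ↔ t = can T.val := by
  have hN := hg.hN
  have hTN := lt_of_good hg hT
  have hcan : (can T.val).code ≤ T.code := can_le rfl
  have hcs : (can T.val).sz ≤ σ := (sz_le_of_code hcan).trans hT
  have snd : ∀ s : Lt, s.code < N → lk N w 7 s.code T.code 0 → s.val = T.val := by
    intro s hs h
    obtain ⟨a, c, h1, h2, h3⟩ := hw.h7 _ hs _ hTN _ (by omega) h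
    rw [← code_inj h1, ← code_inj h2]
    exact h3
  constructor
  · rintro ⟨h1, h2⟩
    have h3 := snd t ht h1
    have h4 : (can T.val).code ≤ t.code := can_le h3
    by_contra hne
    have h5 : (can T.val).code ≠ t.code := fun h => hne (code_inj h).symm
    have h6 := sz_le_code (can T.val)
    refine h2 _ (by omega) (can T.val).sz (by omega)
      ((hg.h3 _ (by omega) _ (by omega)).2 ⟨_, rfl, rfl⟩) ?_
    exact (hg.h7 _ _ hcs hT).2 (val_can _)
  · rintro rfl
    refine ⟨(hg.h7 _ _ hcs hT).2 (val_can _), ?_⟩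
    intro c' hc' s hs h1 h2
    obtain ⟨t', rfl, -⟩ := (hg.h3 _ (by omega) _ hs).1 h1
    have h3 := snd t' (by omega) h2
    have h4 : (can T.val).code ≤ t'.code := can_le h3
    omega

theorem range_flatMap {N L : ℕ} (hL : L ≤ N) :
    ((List.range N).flatMap fun i => cif (i < L) [true] []) = List.replicate L true := by
  induction N with
  | zero =>
    have : L = 0 := by omega
    subst this
    rfl
  | succ N ih =>
    rw [List.range_succ, List.flatMap_append, List.flatMap_singleton]
    by_cases h : L ≤ N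
    · rw [ih h, cif_neg (by omega), List.append_nil]
    · have hLN : L = N + 1 := by omega
      subst hLN
      rw [cif_pos (by omega)]
      have : ((List.range N).flatMap fun i => cif (i < N + 1) [true] []) =
          List.replicate N true := by
        clear ih h hL
        induction N with
        | zero => rfl
        | succ N ih =>
          rw [List.range_succ, List.flatMap_append, List.flatMap_singleton, cif_pos (by omega)]
          have : ((List.range N).flatMap fun i => cif (i < N + 1 + 1) [true] []) =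
              (List.range N).flatMap fun i => cif (i < N + 1) [true] [] := by
            apply List.flatMap_congr
            intro i hi
            have := List.mem_range.1 hi
            rw [cif_pos (by omega), cif_pos (by omega)]
          rw [this, ih, ← List.replicate_succ']
      rw [this, ← List.replicate_succ']

/-- The output is the name of the value of the target term. -/
theorem out_eq (hw : Snd N w v) (hg : Good σ N w v) {T : Lt} (hT : T.sz ≤ σ)
    (hσ : 2 * 8 ^ (σ * σ) ≤ N) {Tg : ℕ → Prop} (hTg : ∀ d < N, Tg d ↔ d = T.code) :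
    out N w Tg = nu T.val := by
  have hN := hg.hN
  have hTN := lt_of_good hg hT
  have hcan : (can T.val).code ≤ T.code := can_le rfl
  have hcs : (can T.val).sz ≤ σ := (sz_le_of_code hcan).trans hT
  have htl : tl (can T.val) ≤ N := by
    have h1 := tl_lt (can T.val)
    have h2 : 8 ^ ((can T.val).sz * (can T.val).sz) ≤ 8 ^ (σ * σ) :=
      Nat.pow_le_pow_right (by norm_num) (Nat.mul_le_mul hcs hcs)
    omega
  have key : ∀ i, Oc N w Tg i ↔ i < tl (can T.val) := by
    intro i
    constructor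
    · rintro ⟨d, hd, h1, c, hc, s, hs, n, hn, h2, h3, h4⟩
      rw [hTg d hd] at h1
      subst h1
      obtain ⟨t, rfl, rfl, rfl, -⟩ := (nm_iff hg hc hs).1 h2
      rw [mn_iff hw hg hT hc] at h3
      rwa [← h3]
    · intro hi
      have h6 := sz_le_code (can T.val)
      have h7 : 8 ^ ((can T.val).sz * (can T.val).sz) ≤ 8 ^ (σ * σ) :=
        Nat.pow_le_pow_right (by norm_num) (Nat.mul_le_mul hcs hcs)
      have h8 : 0 < 8 ^ (σ * σ) := by positivity
      exact ⟨T.code, hTN, (hTg _ hTN).2 rfl, (can T.val).code, by omega, (can T.val).sz,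
        by omega, tl (can T.val), by omega,
        (nm_iff hg (by omega) (by omega)).2 ⟨_, rfl, rfl, rfl, by omega⟩,
        (mn_iff hw hg hT (by omega)).2 rfl, hi⟩
  unfold out nu
  rw [← range_flatMap htl]
  apply List.flatMap_congr
  intro i _
  by_cases h : i < tl (can T.val)
  · rw [cif_pos h, cif_pos ((key i).2 h)]
  · rw [cif_neg h, cif_neg (fun h' => h ((key i).1 h'))]

end meaning

theorem nums {s σ L K : ℕ} (hs : 1 ≤ s) (hσ : σ ≤ 2 * s + 1) (hL : 8 ^ (s * s) ≤ L)
    (hK : 480001 ≤ K) : 8 ^ (σ + 2 * σ * σ) ≤ L ^ K ∧ 8 * 2 ^ (160000 * σ ^ 2) ≤ L ^ K ∧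
      2 * 8 ^ (σ * σ) ≤ L ^ K := by
  have hσ3 : σ ≤ 3 * s := by omega
  have hσσ : σ * σ ≤ 9 * (s * s) := by nlinarith
  have hss : 1 ≤ s * s := Nat.mul_pos hs hs
  have key : ∀ a, a ≤ 480001 * (s * s) → 8 ^ a ≤ L ^ K := by
    intro a ha
    calc 8 ^ a ≤ 8 ^ (s * s * K) := by
          apply Nat.pow_le_pow_right (by norm_num)
          refine ha.trans ?_
          rw [mul_comm (s * s) K]
          exact Nat.mul_le_mul_right _ hK
      _ = (8 ^ (s * s)) ^ K := pow_mul _ _ _
      _ ≤ L ^ K := Nat.pow_le_pow_left hL K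
  refine ⟨key _ ?_, ?_, ?_⟩
  · have h1 : s ≤ s * s := Nat.le_mul_self s
    have h2 : 2 * σ * σ = 2 * (σ * σ) := by ring
    omega
  · have h1 : 8 * 2 ^ (160000 * σ ^ 2) ≤ 8 ^ (480000 * (s * s) + 1) := by
      rw [pow_succ 8, mul_comm]
      refine Nat.mul_le_mul_right _ ?_
      calc 2 ^ (160000 * σ ^ 2) ≤ 2 ^ (3 * (480000 * (s * s))) := by
            apply Nat.pow_le_pow_right (by norm_num)
            rw [sq]
            omega
        _ = (2 ^ 3) ^ (480000 * (s * s)) := pow_mul _ _ _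
        _ = 8 ^ (480000 * (s * s)) := by norm_num
    exact h1.trans (key _ (by omega))
  · have h1 : 2 * 8 ^ (σ * σ) ≤ 8 ^ (σ * σ + 1) := by
      rw [pow_succ]
      omega
    exact h1.trans (key _ (by omega))

end AM21
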