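import Pool.Agent.AM21.Table

/-!
# Meaning of the tables
-/

set_option autoImplicit false

namespace AM21

open BK21 Lt

/-- Intended meaning of an entry. -/
def Sem (N : ℕ) (v : List Bool) (r x y z : ℕ) : Prop :=
  (r = 0 → z = x ^ y) ∧ (r = 1 → 0 < x ∧ z = 2 ^ y % x) ∧ (r = 2 → 0 < x ∧ z = 3 ^ y % x) ∧
  (r = 3 → ∃ t : Lt, t.code = x ∧ t.sz = y) ∧ (r = 4 → ∃ t : Lt, t.code = x ∧ t.val = y) ∧
  (r = 5 → ∃ t : Lt, t.code = x ∧ t.Small (thr N) ∧ 0 < y ∧ z = t.val % y) ∧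
  (r = 6 → ∃ t t' : Lt, t.code = x ∧ t'.code = y ∧ (cat t t').code = z) ∧
  (r = 7 → ∃ t t' : Lt, t.code = x ∧ t'.code = y ∧ t.val = t'.val) ∧
  (r = 8 → y = 0 ∧ z = 0 ∧ v.getD x false = true)

/-- The table is sound. -/
structure Snd (N : ℕ) (w v : List Bool) : Prop where
  h0 : ∀ x < N, ∀ y < N, ∀ z < N, lk N w 0 x y z → z = x ^ y
  h1 : ∀ x < N, ∀ y < N, ∀ z < N, lk N w 1 x y z → 0 < x ∧ z = 2 ^ y % x
  h2 : ∀ x < N, ∀ y < N, ∀ z < N, lk N w 2 x y z → 0 < x ∧ z = 3 ^ y % x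
  h3 : ∀ x < N, ∀ y < N, ∀ z < N, lk N w 3 x y z → ∃ t : Lt, t.code = x ∧ t.sz = y
  h4 : ∀ x < N, ∀ y < N, ∀ z < N, lk N w 4 x y z → ∃ t : Lt, t.code = x ∧ t.val = y
  h5 : ∀ x < N, ∀ y < N, ∀ z < N, lk N w 5 x y z →
    ∃ t : Lt, t.code = x ∧ t.Small (thr N) ∧ 0 < y ∧ z = t.val % y
  h6 : ∀ x < N, ∀ y < N, ∀ z < N, lk N w 6 x y z →
    ∃ t t' : Lt, t.code = x ∧ t'.code = y ∧ (cat t t').code = z
  h7 : ∀ x < N, ∀ y < N, ∀ z < N, lk N w 7 x y z →
    ∃ t t' : Lt, t.code = x ∧ t'.code = y ∧ t.val = t'.val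
  h8 : ∀ x < N, (lk N w 8 x 0 0 ↔ v.getD x false = true)

theorem mod_eq {q m z a : ℕ} (hz : z < m) (h : q * m + z = a) : z = a % m := by
  rw [← h, Nat.mul_add_mod', Nat.mod_eq_of_lt hz]

theorem sz_le_code (t : Lt) : t.sz ≤ t.code := by
  induction t with
  | Z => simp [sz, code]
  | S t ih => simp only [sz, code]; omega
  | A b u t ihu iht =>
    simp only [sz, code]
    have h1 : t.code ≤ 8 ^ u.sz * t.code := Nat.le_mul_of_pos_left _ (by positivity)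
    have h2 : 3 ≤ dg b := by cases b <;> simp [dg]
    omega

section sound

variable {N : ℕ} {w v : List Bool} (hN : 64 ≤ N) (hw : Snd N w v)
include hN hw

theorem AA_sound {d x u t : ℕ} (hu : u < N) (ht : t < N) (h : AA N w d x u t) :
    ∃ tu tt : Lt, tu.code = u ∧ tt.code = t ∧ x = d + 8 * (tu.code + 8 ^ tu.sz * tt.code) := by
  obtain ⟨s, hs, s', hs', q, hq, h1, h2, h3, h4⟩ := h
  obtain ⟨tu, hu1, hu2⟩ := hw.h3 _ hu _ hs _ (by omega) h1
  obtain ⟨tt, ht1, ht2⟩ := hw.h3 _ ht _ hs' _ (by omega) h2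
  have h5 := hw.h0 _ (by omega) _ hs _ hq h3
  refine ⟨tu, tt, hu1, ht1, ?_⟩
  rw [h4, h5, hu1, ht1, hu2]

theorem AA_sound' {b : Bool} {x u t : ℕ} (hu : u < N) (ht : t < N) (h : AA N w (dg b) x u t) :
    ∃ tu tt : Lt, tu.code = u ∧ tt.code = t ∧ x = (A b tu tt).code := by
  obtain ⟨tu, tt, h1, h2, h3⟩ := AA_sound hN hw hu ht h
  exact ⟨tu, tt, h1, h2, by rw [h3, code]⟩

theorem AA_sound3 {x u t : ℕ} (hu : u < N) (ht : t < N) (h : AA N w 3 x u t) :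
    ∃ tu tt : Lt, tu.code = u ∧ tt.code = t ∧ x = (A false tu tt).code :=
  AA_sound' hN hw (b := false) hu ht h

theorem AA_sound4 {x u t : ℕ} (hu : u < N) (ht : t < N) (h : AA N w 4 x u t) :
    ∃ tu tt : Lt, tu.code = u ∧ tt.code = t ∧ x = (A true tu tt).code :=
  AA_sound' hN hw (b := true) hu ht h

theorem eq_sound {x y : ℕ} (hx : x < N) (hy : y < N) (h : rEq1 N w x y ∨ rEq2 N w x y ∨
    rEq3 N w x y ∨ rEq4 N w x y ∨ rEq5 N w x y ∨ rEq6 N w x y ∨ rEq7 N w x y) :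
    ∃ t t' : Lt, t.code = x ∧ t'.code = y ∧ t.val = t'.val := by
  rcases h with h | h | h | h | h | h | h
  · rcases h with ⟨rfl, s, hs, h⟩ | h | ⟨z, hz, h1, h2⟩ | ⟨u, hu, t, ht, h1, h2, h3⟩
    · obtain ⟨t, h1, -⟩ := hw.h3 _ hx _ hs _ (by omega) h
      exact ⟨t, t, h1, h1, rfl⟩
    · obtain ⟨t, t', h1, h2, h3⟩ := hw.h7 _ hy _ hx _ (by omega) h
      exact ⟨t', t, h2, h1, h3.symm⟩
    · obtain ⟨t, t', h3, h4, h5⟩ := hw.h7 _ hx _ hz _ (by omega) h1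
      obtain ⟨t2, t3, h6, h7, h8⟩ := hw.h7 _ hz _ hy _ (by omega) h2
      have : t' = t2 := code_inj (by rw [h4, h6])
      subst this
      exact ⟨t, t3, h3, h7, h5.trans h8⟩
    · obtain ⟨a, a', h4, h5, h6⟩ := hw.h7 _ hu _ ht _ (by omega) h3
      unfold SS at h1 h2
      exact ⟨S a, S a', by simp only [code, h4, h1], by simp only [code, h5, h2],
        by simp only [val, h6]⟩
  · obtain ⟨d, hd, u, hu, u', hu', t, ht, t', ht', hdd, h1, h2, h3, h4⟩ := h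
    obtain ⟨b, rfl⟩ : ∃ b, d = dg b := by
      rcases hdd with rfl | rfl
      · exact ⟨false, rfl⟩
      · exact ⟨true, rfl⟩
    obtain ⟨a, c, a1, c1, e1⟩ := AA_sound' hN hw hu ht h1
    obtain ⟨a', c', a1', c1', e1'⟩ := AA_sound' hN hw hu' ht' h2
    obtain ⟨p, p', p1, p2, p3⟩ := hw.h7 _ hu _ hu' _ (by omega) h3
    obtain ⟨r, r', r1, r2, r3⟩ := hw.h7 _ ht _ ht' _ (by omega) h4
    have q1 : a = p := code_inj (by rw [a1, p1])
    have q2 : a' = p' := code_inj (by rw [a1', p2])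
    have q3 : c = r := code_inj (by rw [c1, r1])
    have q4 : c' = r' := code_inj (by rw [c1', r2])
    subst q1
    subst q2
    subst q3
    subst q4
    exact ⟨_, _, e1.symm, e1'.symm, by simp only [val, p3, r3]⟩
  · obtain ⟨d, hd, v, hv, u, hu, t, ht, v', hv', hdd, h1, h2, h3, h4⟩ := h
    obtain ⟨b, rfl⟩ : ∃ b, d = dg b := by
      rcases hdd with rfl | rfl
      · exact ⟨false, rfl⟩
      · exact ⟨true, rfl⟩
    unfold SS at h1 h4
    obtain ⟨a, c, a1, c1, e1⟩ := AA_sound' hN hw hu ht h2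
    obtain ⟨a', c', a1', c1', e1'⟩ := AA_sound' hN hw hu hv' h3
    have q1 : a' = a := code_inj (by rw [a1, a1'])
    have q2 : c' = S c := code_inj (by rw [c1', h4]; simp only [code, c1])
    subst q1
    subst q2
    refine ⟨S (A b a' c), _, ?_, e1'.symm, ?_⟩
    · rw [h1, e1]
      simp only [code]
    · simp only [val]
      ring
  · obtain ⟨d, hd, d', hd', u, hu, u', hu', t, ht, v, hv, v', hv', hdd, hdd', h1, h2, h3, h4⟩ := h
    obtain ⟨b, rfl⟩ : ∃ b, d = dg b := by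
      rcases hdd with rfl | rfl
      · exact ⟨false, rfl⟩
      · exact ⟨true, rfl⟩
    obtain ⟨b', rfl⟩ : ∃ b, d' = dg b := by
      rcases hdd' with rfl | rfl
      · exact ⟨false, rfl⟩
      · exact ⟨true, rfl⟩
    obtain ⟨a, c, a1, c1, e1⟩ := AA_sound' hN hw hu hv h1
    obtain ⟨a2, c2, a3, c3, e2⟩ := AA_sound' hN hw hu' ht h2
    obtain ⟨a4, c4, a5, c5, e3⟩ := AA_sound' hN hw hu' hv' h3
    obtain ⟨a6, c6, a7, c7, e4⟩ := AA_sound' hN hw hu ht h4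
    have q1 : c = A b' a2 c2 := code_inj (by rw [c1, e2])
    have q2 : c4 = A b a6 c6 := code_inj (by rw [c5, e4])
    have q3 : a4 = a2 := code_inj (by rw [a5, a3])
    have q4 : a6 = a := code_inj (by rw [a7, a1])
    have q5 : c6 = c2 := code_inj (by rw [c7, c3])
    subst q1
    subst q2
    subst q3
    subst q4
    subst q5
    refine ⟨_, _, e1.symm, e3.symm, ?_⟩
    simp only [val]
    ring
  · obtain ⟨u, hu, u', hu', v, hv, t, ht, p, hp, h1, h2, h3, h4, h5⟩ := h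
    unfold SS at h2
    obtain ⟨a, c, a1, c1, e1⟩ := AA_sound3 hN hw hv ht h1
    obtain ⟨a2, c2, a3, c3, e2⟩ := AA_sound3 hN hw hu hp h3
    obtain ⟨a4, c4, a5, c5, e3⟩ := AA_sound3 hN hw hu' ht h4
    obtain ⟨b1, b2, b3, b4, b5⟩ := hw.h7 _ hu _ hu' _ (by omega) h5
    have q1 : a = S a2 := code_inj (by rw [a1, h2]; simp only [code, a3])
    have q2 : c2 = A false a4 c4 := code_inj (by rw [c3, e3])
    have q3 : c4 = c := code_inj (by rw [c5, c1])
    have q4 : b1 = a2 := code_inj (by rw [b3, a3])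
    have q5 : b2 = a4 := code_inj (by rw [b4, a5])
    subst q1
    subst q2
    subst q3
    subst q4
    subst q5
    refine ⟨_, _, e1.symm, e2.symm, ?_⟩
    simp only [val, bas, ← b5, pow_succ]
    ring
  · obtain ⟨u, hu, u', hu', u'', hu'', v, hv, t, ht, p, hp, p', hp', h1, h2, h3, h4, h4', h5,
      h6⟩ := h
    unfold SS at h2
    obtain ⟨a, c, a1, c1, e1⟩ := AA_sound4 hN hw hv ht h1
    obtain ⟨a2, c2, a3, c3, e2⟩ := AA_sound4 hN hw hu hp h3
    obtain ⟨a4, c4, a5, c5, e3⟩ := AA_sound4 hN hw hu' hp' h4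
    obtain ⟨a6, c6, a7, c7, e4⟩ := AA_sound4 hN hw hu'' ht h4'
    obtain ⟨b1, b2, b3, b4, b5⟩ := hw.h7 _ hu _ hu' _ (by omega) h5
    obtain ⟨d1, d2, d3, d4, d5⟩ := hw.h7 _ hu _ hu'' _ (by omega) h6
    have q1 : a = S a2 := code_inj (by rw [a1, h2]; simp only [code, a3])
    have q2 : c2 = A true a4 c4 := code_inj (by rw [c3, e3])
    have q2' : c4 = A true a6 c6 := code_inj (by rw [c5, e4])
    have q3 : c6 = c := code_inj (by rw [c7, c1])
    have q4 : b1 = a2 := code_inj (by rw [b3, a3])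
    have q5 : b2 = a4 := code_inj (by rw [b4, a5])
    have q6 : d1 = a2 := code_inj (by rw [d3, a3])
    have q7 : d2 = a6 := code_inj (by rw [d4, a7])
    subst q1
    subst q2
    subst q2'
    subst q3
    subst q4
    subst q5
    subst q6
    subst q7
    refine ⟨_, _, e1.symm, e2.symm, ?_⟩
    simp only [val, bas, ← b5, ← d5, pow_succ]
    ring
  · obtain ⟨⟨s, hs, h1⟩, ⟨s', hs', h2⟩, h3⟩ := h
    obtain ⟨t, t1, t2⟩ := hw.h3 _ hx _ hs _ (by omega) h1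
    obtain ⟨t', t1', t2'⟩ := hw.h3 _ hy _ hs' _ (by omega) h2
    have key : ∀ m, 0 < m → m < N → (t.Small (thr N) ∧ t'.Small (thr N) ∧
        t.val % m = t'.val % m) := by
      intro m hm hmN
      obtain ⟨r, hr, h4, h5⟩ := h3 m hmN hm
      obtain ⟨a, a1, a2, a3, a4⟩ := hw.h5 _ hx _ hmN _ hr h4
      obtain ⟨c, c1, c2, c3, c4⟩ := hw.h5 _ hy _ hmN _ hr h5
      have q1 : a = t := code_inj (by rw [a1, t1])
      have q2 : c = t' := code_inj (by rw [c1, t1'])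
      subst q1
      subst q2
      exact ⟨a2, c2, by rw [← a4, ← c4]⟩
    have k1 := key 1 (by norm_num) (by omega)
    have s1 := sz_le_code t
    have s2 := sz_le_code t'
    exact ⟨t, t', t1, t1', small_eq hN (by omega) (by omega) k1.1 k1.2.1
      fun m hm hmN => (key m hm hmN).2.2⟩

theorem mod_sound {r b x y z : ℕ} (hx : x < N)
    (hr : ∀ y < N, ∀ z < N, lk N w r x y z → 0 < x ∧ z = b ^ y % x)
    (h : rMod N w r b x y z) : 0 < x ∧ z = b ^ y % x := by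
  obtain ⟨⟨h1, h2⟩, ⟨rfl, q, -, h3⟩ | ⟨y', hy', z', hz', q, -, rfl, h3, h4⟩⟩ := h
  · refine ⟨h1, ?_⟩
    rw [pow_zero]
    exact mod_eq h2 h3
  · refine ⟨h1, ?_⟩
    have h5 := (hr _ hy' _ hz' h4).2
    rw [mod_eq h2 h3, h5, pow_succ, mul_comm, Nat.mod_mul_mod]

theorem Snd.step : Snd N (mkt N (AM21.step N w)) v := by
  have e : ∀ {r x y z : ℕ}, r < 9 → x < N → y < N → z < N →
      (lk N (mkt N (AM21.step N w)) r x y z ↔ AM21.step N w r x y z) :=
    fun hr hx hy hz => lk_mkt hr hx hy hz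
  refine ⟨?_, ?_, ?_, ?_, ?_, ?_, ?_, ?_, ?_⟩
  · intro x hx y hy z hz hl
    rw [e (by norm_num) hx hy hz] at hl
    rcases hl with hl | ⟨-, hl⟩ | ⟨hr, -⟩ | ⟨hr, -⟩ | ⟨hr, -⟩ | ⟨hr, -⟩ | ⟨hr, -⟩ | ⟨hr, -⟩ |
      ⟨hr, -⟩
    · exact hw.h0 _ hx _ hy _ hz hl
    · rcases hl with ⟨rfl, rfl⟩ | ⟨y', hy', z', hz', rfl, rfl, h⟩
      · rfl
      · rw [hw.h0 _ hx _ hy' _ hz' h, pow_succ]
        ring
    all_goals omega
  · intro x hx y hy z hz hl
    rw [e (by norm_num) hx hy hz] at hl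
    rcases hl with hl | ⟨hr, -⟩ | ⟨-, hl⟩ | ⟨hr, -⟩ | ⟨hr, -⟩ | ⟨hr, -⟩ | ⟨hr, -⟩ | ⟨hr, -⟩ |
      ⟨hr, -⟩
    · exact hw.h1 _ hx _ hy _ hz hl
    · omega
    · exact mod_sound hN hw hx (fun y hy z hz h => hw.h1 _ hx _ hy _ hz h) hl
    all_goals omega
  · intro x hx y hy z hz hl
    rw [e (by norm_num) hx hy hz] at hl
    rcases hl with hl | ⟨hr, -⟩ | ⟨hr, -⟩ | ⟨-, hl⟩ | ⟨hr, -⟩ | ⟨hr, -⟩ | ⟨hr, -⟩ | ⟨hr, -⟩ |
      ⟨hr, -⟩
    · exact hw.h2 _ hx _ hy _ hz hl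
    · omega
    · omega
    · exact mod_sound hN hw hx (fun y hy z hz h => hw.h2 _ hx _ hy _ hz h) hl
    all_goals omega
  · intro x hx y hy z hz hl
    rw [e (by norm_num) hx hy hz] at hl
    rcases hl with hl | ⟨hr, -⟩ | ⟨hr, -⟩ | ⟨hr, -⟩ | ⟨-, hl⟩ | ⟨hr, -⟩ | ⟨hr, -⟩ | ⟨hr, -⟩ |
      ⟨hr, -⟩
    · exact hw.h3 _ hx _ hy _ hz hl
    · omega
    · omega
    · omega
    · rcases hl with ⟨rfl, rfl⟩ | ⟨u, hu, s, hs, h1, rfl, h2⟩ |
        ⟨u, hu, t, ht, s, hs, s', hs', q, hq, h1, h2, h3, h4, rfl⟩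
      · exact ⟨Z, rfl, rfl⟩
      · obtain ⟨t, t1, t2⟩ := hw.h3 _ hu _ hs _ (by omega) h2
        unfold SS at h1
        exact ⟨S t, by simp only [code, t1, h1], by simp only [sz, t2]⟩
      · obtain ⟨a, a1, a2⟩ := hw.h3 _ hu _ hs _ (by omega) h1
        obtain ⟨c, c1, c2⟩ := hw.h3 _ ht _ hs' _ (by omega) h2
        have h5 := hw.h0 _ (by omega) _ hs _ hq h3
        rcases h4 with h4 | h4
        · exact ⟨A false a c, by simp only [code, dg, a1, c1, a2, h4, h5],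
            by simp only [sz, a2, c2]⟩
        · exact ⟨A true a c, by simp only [code, dg, a1, c1, a2, h4, h5],
            by simp only [sz, a2, c2]⟩
    all_goals omega
  · intro x hx y hy z hz hl
    rw [e (by norm_num) hx hy hz] at hl
    rcases hl with hl | ⟨hr, -⟩ | ⟨hr, -⟩ | ⟨hr, -⟩ | ⟨hr, -⟩ | ⟨-, hl⟩ | ⟨hr, -⟩ | ⟨hr, -⟩ |
      ⟨hr, -⟩
    · exact hw.h4 _ hx _ hy _ hz hl
    · omega
    · omega
    · omega
    · omega
    · rcases hl with ⟨rfl, rfl⟩ | ⟨u, hu, s, hs, h1, rfl, h2⟩ |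
        ⟨u, hu, t, ht, a, ha, c, hc, p, hp, h1, h2, h3, rfl⟩
      · exact ⟨Z, rfl, rfl⟩
      · obtain ⟨t, t1, t2⟩ := hw.h4 _ hu _ hs _ (by omega) h2
        unfold SS at h1
        exact ⟨S t, by simp only [code, t1, h1], by simp only [val, t2]⟩
      · obtain ⟨a', a1, a2⟩ := hw.h4 _ hu _ ha _ (by omega) h2
        obtain ⟨c', c1, c2⟩ := hw.h4 _ ht _ hc _ (by omega) h3
        rcases h1 with ⟨h1, h4⟩ | ⟨h1, h4⟩
        · obtain ⟨p1, p2, p3, p4, p5⟩ := AA_sound3 hN hw hu ht h1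
          have q1 : a' = p1 := code_inj (by rw [a1, p3])
          have q2 : c' = p2 := code_inj (by rw [c1, p4])
          subst q1
          subst q2
          have h5 := hw.h0 _ (by omega) _ ha _ hp h4
          exact ⟨_, p5.symm, by simp only [val, bas, a2, c2, h5]⟩
        · obtain ⟨p1, p2, p3, p4, p5⟩ := AA_sound4 hN hw hu ht h1
          have q1 : a' = p1 := code_inj (by rw [a1, p3])
          have q2 : c' = p2 := code_inj (by rw [c1, p4])
          subst q1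
          subst q2
          have h5 := hw.h0 _ (by omega) _ ha _ hp h4
          exact ⟨_, p5.symm, by simp only [val, bas, a2, c2, h5]⟩
    all_goals omega
  · intro x hx y hy z hz hl
    rw [e (by norm_num) hx hy hz] at hl
    rcases hl with hl | ⟨hr, -⟩ | ⟨hr, -⟩ | ⟨hr, -⟩ | ⟨hr, -⟩ | ⟨hr, -⟩ | ⟨-, hl⟩ | ⟨hr, -⟩ |
      ⟨hr, -⟩
    · exact hw.h5 _ hx _ hy _ hz hl
    · omega
    · omega
    · omega
    · omega
    · omega
    · obtain ⟨⟨hy0, hzy⟩, ⟨rfl, rfl⟩ | ⟨u, hu, z', hz', q, hq, h1, h2, h3⟩ |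
        ⟨u, hu, t, ht, a, ha, p, hp, z', hz', q, hq, h1, h2, h3, h4, h5⟩⟩ := hl
      · exact ⟨Z, rfl, trivial, hy0, by simp [val]⟩
      · obtain ⟨t, t1, t2, t3, t4⟩ := hw.h5 _ hu _ hy _ hz' h2
        unfold SS at h1
        refine ⟨S t, by simp only [code, t1, h1], t2, hy0, ?_⟩
        rw [mod_eq hzy h3, t4, val, Nat.mod_add_mod]
      · obtain ⟨a', a1, a2⟩ := hw.h4 _ hu _ ha _ (by omega) h3
        obtain ⟨c', c1, c2, c3, c4⟩ := hw.h5 _ ht _ hy _ hz' h4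
        rcases h1 with ⟨h1, h6⟩ | ⟨h1, h6⟩
        · obtain ⟨p1, p2, p3, p4, p5⟩ := AA_sound3 hN hw hu ht h1
          have q1 : a' = p1 := code_inj (by rw [a1, p3])
          have q2 : c' = p2 := code_inj (by rw [c1, p4])
          subst q1
          subst q2
          have h7 := (hw.h1 _ hy _ ha _ hp h6).2
          refine ⟨_, p5.symm, ⟨?_, c2⟩, hy0, ?_⟩
          · rw [lt_thr, a2]
            exact h2
          · rw [mod_eq hzy h5, h7, c4, val, a2, ← Nat.add_mod]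
            rfl
        · obtain ⟨p1, p2, p3, p4, p5⟩ := AA_sound4 hN hw hu ht h1
          have q1 : a' = p1 := code_inj (by rw [a1, p3])
          have q2 : c' = p2 := code_inj (by rw [c1, p4])
          subst q1
          subst q2
          have h7 := (hw.h2 _ hy _ ha _ hp h6).2
          refine ⟨_, p5.symm, ⟨?_, c2⟩, hy0, ?_⟩
          · rw [lt_thr, a2]
            exact h2
          · rw [mod_eq hzy h5, h7, c4, val, a2, ← Nat.add_mod]
            rfl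
    all_goals omega
  · intro x hx y hy z hz hl
    rw [e (by norm_num) hx hy hz] at hl
    rcases hl with hl | ⟨hr, -⟩ | ⟨hr, -⟩ | ⟨hr, -⟩ | ⟨hr, -⟩ | ⟨hr, -⟩ | ⟨hr, -⟩ | ⟨-, hl⟩ |
      ⟨hr, -⟩
    · exact hw.h6 _ hx _ hy _ hz hl
    · omega
    · omega
    · omega
    · omega
    · omega
    · omega
    · rcases hl with ⟨rfl, rfl, s, hs, h1⟩ | ⟨u, hu, t, ht, h1, h2, h3⟩ |
        ⟨u, hu, t, ht, t', ht', h1, h2⟩
      · obtain ⟨t, t1, -⟩ := hw.h3 _ hy _ hs _ (by omega) h1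
        exact ⟨Z, t, rfl, t1, t1⟩
      · obtain ⟨a, c, a1, a2, a3⟩ := hw.h6 _ hu _ hy _ ht h3
        unfold SS at h1 h2
        exact ⟨S a, c, by simp only [code, a1, h1], a2, by simp only [cat, code, a3, h2]⟩
      · obtain ⟨a, c, a1, a2, a3⟩ := hw.h6 _ ht _ hy _ ht' h2
        rcases h1 with ⟨h1, h3⟩ | ⟨h1, h3⟩
        · obtain ⟨p1, p2, p3, p4, p5⟩ := AA_sound3 hN hw hu ht h1
          obtain ⟨r1, r2, r3, r4, r5⟩ := AA_sound3 hN hw hu ht' h3
          have q1 : p2 = a := code_inj (by rw [p4, a1])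
          have q2 : r2 = cat a c := code_inj (by rw [r4, a3])
          have q3 : r1 = p1 := code_inj (by rw [r3, p3])
          subst q1
          subst q2
          subst q3
          exact ⟨_, c, p5.symm, a2, by simp only [cat]; exact r5.symm⟩
        · obtain ⟨p1, p2, p3, p4, p5⟩ := AA_sound4 hN hw hu ht h1
          obtain ⟨r1, r2, r3, r4, r5⟩ := AA_sound4 hN hw hu ht' h3
          have q1 : p2 = a := code_inj (by rw [p4, a1])
          have q2 : r2 = cat a c := code_inj (by rw [r4, a3])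
          have q3 : r1 = p1 := code_inj (by rw [r3, p3])
          subst q1
          subst q2
          subst q3
          exact ⟨_, c, p5.symm, a2, by simp only [cat]; exact r5.symm⟩
    all_goals omega
  · intro x hx y hy z hz hl
    rw [e (by norm_num) hx hy hz] at hl
    rcases hl with hl | ⟨hr, -⟩ | ⟨hr, -⟩ | ⟨hr, -⟩ | ⟨hr, -⟩ | ⟨hr, -⟩ | ⟨hr, -⟩ | ⟨hr, -⟩ |
      ⟨-, hl⟩
    · exact hw.h7 _ hx _ hy _ hz hl
    · omega
    · omega
    · omega
    · omega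
    · omega
    · omega
    · omega
    · exact eq_sound hN hw hx hy hl
  · intro x hx
    rw [e (by norm_num) hx (by omega) (by omega)]
    constructor
    · rintro (hl | ⟨hr, -⟩ | ⟨hr, -⟩ | ⟨hr, -⟩ | ⟨hr, -⟩ | ⟨hr, -⟩ | ⟨hr, -⟩ | ⟨hr, -⟩ | ⟨hr, -⟩)
      · exact (hw.h8 x hx).1 hl
      all_goals omega
    · intro h
      exact Or.inl ((hw.h8 x hx).2 h)

end sound

theorem snd_init {N : ℕ} {v : List Bool} (hN : 64 ≤ N) : Snd N (mkt N (init v)) v := by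
  have e : ∀ {r x y z : ℕ}, r < 9 → x < N → y < N → z < N →
      (lk N (mkt N (init v)) r x y z ↔ init v r x y z) :=
    fun hr hx hy hz => lk_mkt hr hx hy hz
  refine ⟨?_, ?_, ?_, ?_, ?_, ?_, ?_, ?_, ?_⟩
  iterate 8
    intro x hx y hy z hz hl
    rw [e (by norm_num) hx hy hz] at hl
    exact absurd hl.1 (by norm_num)
  · intro x hx
    rw [e (by norm_num) hx (by omega) (by omega)]
    exact ⟨fun h => h.2.2.2, fun h => ⟨rfl, rfl, rfl, h⟩⟩

end AM21
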