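import Pool.Agent.BK21.Gap

/-!
# Closed terms in list form and a complete calculus of bounded size
-/

set_option autoImplicit false

namespace AM21

open BK21

/-- Closed terms: `Z = 0`, `S t = t + 1`, `A b u t = b ^ u + t` with base `2` or `3`. -/
inductive Lt : Type
  | Z : Lt
  | S (t : Lt) : Lt
  | A (b : Bool) (u t : Lt) : Lt

namespace Lt

/-- Value. -/
def val : Lt → ℕ
  | Z => 0
  | S t => t.val + 1
  | A b u t => bas b ^ u.val + t.val

/-- Number of nodes. -/
def sz : Lt → ℕ
  | Z => 1
  | S t => t.sz + 1
  | A _ u t => u.sz + t.sz + 1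

/-- Number of exponentials. -/
def nE : Lt → ℕ
  | Z => 0
  | S t => t.nE
  | A _ u t => u.nE + t.nE + 1

/-- Nesting depth. -/
def dp : Lt → ℕ
  | Z => 0
  | S t => t.dp
  | A _ u t => max (u.dp + 1) t.dp

/-- All exponents at the top level are smaller than `N`. -/
def Small (N : ℕ) : Lt → Prop
  | Z => True
  | S t => t.Small N
  | A _ u t => u.val < N ∧ t.Small N

theorem one_le_sz (t : Lt) : 1 ≤ t.sz := by
  cases t <;> simp [sz]

theorem nE_lt (t : Lt) : t.nE < t.sz := by
  induction t with
  | Z => simp [nE, sz]
  | S t ih => simp only [nE, sz]; omega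
  | A b u t ih1 ih2 => simp only [nE, sz]; omega

theorem dp_le (t : Lt) : t.dp ≤ t.nE := by
  induction t with
  | Z => simp [nE, dp]
  | S t ih => simpa [nE, dp] using ih
  | A b u t ih1 ih2 =>
    simp only [nE, dp]
    omega

end Lt

open Lt

/-- Add items in front of a term. -/
def mk (L : List (Bool × Lt)) (t : Lt) : Lt := L.foldr (fun p t => A p.1 p.2 t) t

/-- Numerals. -/
def num : ℕ → Lt
  | 0 => Z
  | c + 1 => S (num c)

@[simp] theorem mk_nil (t : Lt) : mk [] t = t := rfl
@[simp] theorem mk_cons (p : Bool × Lt) (L : List (Bool × Lt)) (t : Lt) :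
    mk (p :: L) t = A p.1 p.2 (mk L t) := rfl

theorem mk_append (L L' : List (Bool × Lt)) (t : Lt) : mk (L ++ L') t = mk L (mk L' t) := by
  simp [mk]

theorem val_num (c : ℕ) : (num c).val = c := by
  induction c with
  | zero => rfl
  | succ c ih => simp only [num, val, ih]

theorem sz_num (c : ℕ) : (num c).sz = c + 1 := by
  induction c with
  | zero => rfl
  | succ c ih => simp only [num, sz, ih]

/-- Value of an item. -/
def pv (p : Bool × Lt) : ℕ := bas p.1 ^ p.2.val

theorem val_mk (L : List (Bool × Lt)) (t : Lt) : (mk L t).val = (L.map pv).sum + t.val := by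
  induction L with
  | nil => simp
  | cons p L ih =>
    rw [mk_cons, val, ih, List.map_cons, List.sum_cons, pv]
    ring

/-- Size of an item. -/
def ps (p : Bool × Lt) : ℕ := p.2.sz + 1

theorem sz_mk (L : List (Bool × Lt)) (t : Lt) : (mk L t).sz = (L.map ps).sum + t.sz := by
  induction L with
  | nil => simp
  | cons p L ih =>
    rw [mk_cons, sz, ih, List.map_cons, List.sum_cons, ps]
    ring

/-- A relation closed under the rules of the calculus. -/
structure Closed (M N : ℕ) (R : Lt → Lt → Prop) : Prop where
  refl : ∀ t, t.sz ≤ M → R t t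
  symm : ∀ t t', t.sz ≤ M → t'.sz ≤ M → R t t' → R t' t
  trans : ∀ t t' t'', t.sz ≤ M → t'.sz ≤ M → t''.sz ≤ M → R t t' → R t' t'' → R t t''
  succ : ∀ t t', (S t).sz ≤ M → (S t').sz ≤ M → R t t' → R (S t) (S t')
  cong : ∀ b u u' t t', (A b u t).sz ≤ M → (A b u' t').sz ≤ M → R u u' → R t t' →
    R (A b u t) (A b u' t')
  swapS : ∀ b u t, (S (A b u t)).sz ≤ M → R (S (A b u t)) (A b u (S t))
  swapA : ∀ b b' u u' t, (A b u (A b' u' t)).sz ≤ M →
    R (A b u (A b' u' t)) (A b' u' (A b u t))
  two : ∀ u u' t, (A false u (A false u' t)).sz ≤ M → R u u' →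
    R (A false (S u) t) (A false u (A false u' t))
  three : ∀ u u' u'' t, (A true u (A true u' (A true u'' t))).sz ≤ M → R u u' → R u u'' →
    R (A true (S u) t) (A true u (A true u' (A true u'' t)))
  small : ∀ t t', t.sz ≤ M → t'.sz ≤ M → t.Small N → t'.Small N → t.val = t'.val → R t t'

section calculus

variable {M N : ℕ} {R : Lt → Lt → Prop} (hR : Closed M N R)
include hR

theorem R_mk {L : List (Bool × Lt)} : ∀ {t t' : Lt}, (mk L t).sz ≤ M → (mk L t').sz ≤ M →
    R t t' → R (mk L t) (mk L t') := by
  induction L with
  | nil => intro t t' _ _ h; exact h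
  | cons p L ih =>
    intro t t' h1 h2 h
    rw [mk_cons] at h1 h2 ⊢
    have hp : p.2.sz ≤ M := by simp only [sz] at h1; omega
    refine hR.cong _ _ _ _ _ h1 h2 (hR.refl _ hp) (ih ?_ ?_ h)
    · simp only [sz] at h1; omega
    · simp only [sz] at h2; omega

theorem R_S_mk {L : List (Bool × Lt)} : ∀ {t : Lt}, (S (mk L t)).sz ≤ M →
    R (S (mk L t)) (mk L (S t)) := by
  induction L with
  | nil => intro t h; exact hR.refl _ h
  | cons p L ih =>
    intro t h
    have e : (mk (p :: L) (S t)).sz = (S (mk (p :: L) t)).sz := by
      rw [sz_mk, sz, sz, sz_mk]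
      ring
    have e1 : (A p.1 p.2 (S (mk L t))).sz ≤ M := by
      rw [mk_cons] at h
      simp only [sz] at h ⊢
      omega
    have e2 : (S (mk L t)).sz ≤ M := by
      simp only [sz] at e1 ⊢
      omega
    have e3 : (A p.1 p.2 (mk L (S t))).sz ≤ M := by
      have : (A p.1 p.2 (mk L (S t))).sz = (mk (p :: L) (S t)).sz := rfl
      rw [this, e]
      exact h
    have hp : p.2.sz ≤ M := by simp only [sz] at e1; omega
    refine hR.trans _ (A p.1 p.2 (S (mk L t))) _ h e1 (by rw [e]; exact h) (hR.swapS _ _ _ h) ?_
    exact hR.cong _ _ _ _ _ e1 e3 (hR.refl _ hp) (ih e2)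

theorem R_perm {L L' : List (Bool × Lt)} (h : L.Perm L') : ∀ {t : Lt}, (mk L t).sz ≤ M →
    R (mk L t) (mk L' t) := by
  induction h with
  | nil => intro t h; exact hR.refl _ h
  | @cons p L L' h ih =>
    intro t hs
    have e : (mk (p :: L') t).sz ≤ M := by
      rw [sz_mk] at hs ⊢
      rwa [← ((h.cons p).map ps).sum_eq]
    rw [mk_cons] at hs e ⊢
    have hp : p.2.sz ≤ M := by simp only [sz] at hs; omega
    refine hR.cong _ _ _ _ _ hs e (hR.refl _ hp) (ih ?_)
    simp only [sz] at hs
    omega
  | swap p q L =>
    intro t hs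
    exact hR.swapA _ _ _ _ _ hs
  | @trans L L' L'' h h' ih ih' =>
    intro t hs
    have e : (mk L' t).sz ≤ M := by
      rw [sz_mk] at hs ⊢
      rwa [← (h.map ps).sum_eq]
    have e' : (mk L'' t).sz ≤ M := by
      rw [sz_mk] at e ⊢
      rwa [← (h'.map ps).sum_eq]
    exact hR.trans _ _ _ hs e e' (ih hs) (ih' e)

/-- Normal form of a term. -/
theorem R_norm (t : Lt) : t.sz ≤ M → ∃ L c, R t (mk L (num c)) ∧ (mk L (num c)).sz = t.sz ∧
    (mk L (num c)).val = t.val ∧ (∀ p ∈ L, p.2.dp < t.dp ∧ p.2.nE < t.nE ∧ p.2.sz < t.sz) ∧
    L.length ≤ t.nE ∧ c < t.sz := by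
  induction t with
  | Z =>
    intro h
    exact ⟨[], 0, hR.refl _ h, rfl, rfl, by simp, by simp, by simp [sz]⟩
  | S t ih =>
    intro h
    have h' : t.sz ≤ M := by simp only [sz] at h; omega
    obtain ⟨L, c, h1, h2, h3, h4, h5, h6⟩ := ih h'
    have e1 : (S (mk L (num c))).sz = (S t).sz := by simp only [sz, h2]
    have e2 : (mk L (num (c + 1))).sz = (S t).sz := by
      rw [sz_mk, num, sz, ← e1, sz, sz_mk]
      ring
    refine ⟨L, c + 1, ?_, e2, ?_, ?_, h5, ?_⟩
    · refine hR.trans _ (S (mk L (num c))) _ h (by omega) (by omega)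
        (hR.succ _ _ h (by omega) h1) (R_S_mk hR (by omega))
    · rw [val_mk, val_num, val, ← h3, val_mk, val_num]
      ring
    · intro p hp
      have := h4 p hp
      simp only [sz, dp, nE]
      omega
    · simp only [sz]
      omega
  | A b u t _ ih =>
    intro h
    have h' : t.sz ≤ M := by simp only [sz] at h; omega
    have hu' : u.sz ≤ M := by simp only [sz] at h; omega
    obtain ⟨L, c, h1, h2, h3, h4, h5, h6⟩ := ih h'
    have e1 : (mk ((b, u) :: L) (num c)).sz = (A b u t).sz := by
      rw [mk_cons, sz, sz, h2]
    refine ⟨(b, u) :: L, c, ?_, e1, ?_, ?_, ?_, ?_⟩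
    · exact hR.cong _ _ _ _ _ h (by rw [← e1] at h; exact h) (hR.refl _ hu') h1
    · rw [mk_cons, val, val, h3]
    · intro p hp
      rcases List.mem_cons.1 hp with rfl | hp
      · simp only [sz, dp, nE]
        have := one_le_sz t
        omega
      · have := h4 p hp
        simp only [sz, dp, nE]
        omega
    · simp only [nE, List.length_cons]
      omega
    · simp only [sz]
      omega

end calculus

/-- Sum of the powers with the exponents in a list. -/
def psum (b : Bool) (L : List Lt) : ℕ := (L.map fun u => bas b ^ u.val).sum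

theorem psum_cons (b : Bool) (u : Lt) (L : List Lt) :
    psum b (u :: L) = bas b ^ u.val + psum b L := by
  simp [psum]

theorem psum_append (b : Bool) (L L' : List Lt) : psum b (L ++ L') = psum b L + psum b L' := by
  simp [psum]

theorem psum_perm {b : Bool} {L L' : List Lt} (h : L.Perm L') : psum b L = psum b L' :=
  (h.map _).sum_eq

theorem one_lt_bas (b : Bool) : 1 < bas b := by cases b <;> norm_num [bas]

theorem psum_eq_zero {b : Bool} {L : List Lt} (h : psum b L = 0) : L = [] := by
  cases L with
  | nil => rfl
  | cons u L =>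
    rw [psum_cons] at h
    have : 0 < bas b ^ u.val := Nat.pow_pos (by have := one_lt_bas b; omega)
    omega

theorem dvd_psum {b : Bool} {a : ℕ} {L : List Lt} (h : ∀ u ∈ L, a ≤ u.val) :
    bas b ^ a ∣ psum b L := by
  induction L with
  | nil => simp [psum]
  | cons u L ih =>
    rw [psum_cons]
    exact Nat.dvd_add (Nat.pow_dvd_pow _ (h u (by simp))) (ih fun v hv => h v (by simp [hv]))

theorem psum_const {b : Bool} {a : ℕ} {L : List Lt} (h : ∀ u ∈ L, u.val = a) :
    psum b L = L.length * bas b ^ a := by
  induction L with
  | nil => simp [psum]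
  | cons u L ih =>
    rw [psum_cons, ih fun v hv => h v (by simp [hv]), h u (by simp), List.length_cons]
    ring

/-- Items with a given base. -/
def itm (b : Bool) (L : List Lt) : List (Bool × Lt) := L.map fun u => (b, u)

theorem itm_cons (b : Bool) (u : Lt) (L : List Lt) : itm b (u :: L) = (b, u) :: itm b L := rfl

theorem sum_itm (b : Bool) (L : List Lt) : ((itm b L).map pv).sum = psum b L := by
  simp [itm, psum, pv, Function.comp_def]

section merge

variable {M N : ℕ} {R : Lt → Lt → Prop} (hR : Closed M N R)
include hR

/-- Equal sums of powers of the same base. -/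
theorem R_merge (b : Bool) (d n m : ℕ) (hm : m ≤ M)
    (hP : ∀ u u' : Lt, u.dp ≤ d → u'.dp ≤ d → u.nE ≤ n → u'.nE ≤ n → u.sz ≤ m → u'.sz ≤ m →
      u.val = u'.val → R u u') :
    ∀ (q : ℕ) (L L' : List Lt), L.length + L'.length ≤ q →
    (∀ u ∈ L, u.dp ≤ d ∧ u.nE ≤ n ∧ u.sz + L.length + L'.length ≤ m) →
    (∀ u ∈ L', u.dp ≤ d ∧ u.nE ≤ n ∧ u.sz + L.length + L'.length ≤ m) →
    psum b L = psum b L' → ∀ X X' : Lt, (mk (itm b L) X).sz ≤ M → (mk (itm b L') X').sz ≤ M →
    R X X' → R (mk (itm b L) X) (mk (itm b L') X') := by
  intro q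
  induction q with
  | zero =>
    intro L L' hq _ _ _ X X' _ _ hX
    have h1 : L = [] := List.length_eq_zero_iff.1 (by omega)
    have h2 : L' = [] := List.length_eq_zero_iff.1 (by omega)
    subst h1
    subst h2
    exact hX
  | succ q ih =>
    -- the main case: the least exponent occurs in the first list
    have main : ∀ (L L' : List Lt), L.length + L'.length ≤ q + 1 →
        (∀ u ∈ L, u.dp ≤ d ∧ u.nE ≤ n ∧ u.sz + L.length + L'.length ≤ m) →
        (∀ u ∈ L', u.dp ≤ d ∧ u.nE ≤ n ∧ u.sz + L.length + L'.length ≤ m) →
        psum b L = psum b L' → ∀ X X' : Lt, (mk (itm b L) X).sz ≤ M →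
        (mk (itm b L') X').sz ≤ M → R X X' → ∀ u₀ ∈ L, (∀ u ∈ L, u₀.val ≤ u.val) →
        (∀ u ∈ L', u₀.val ≤ u.val) → R (mk (itm b L) X) (mk (itm b L') X') := by
      intro L L' hq hL hL' hsum X X' hs hs' hX u₀ hu₀ hmin hmin'
      by_cases hex : ∃ u' ∈ L', u'.val = u₀.val
      · -- cancellation
        obtain ⟨u', hu', hval⟩ := hex
        obtain ⟨L₁, hL₁⟩ : ∃ L₁, L.Perm (u₀ :: L₁) := by
          obtain ⟨l₁, l₂, rfl⟩ := List.append_of_mem hu₀
          exact ⟨l₁ ++ l₂, List.perm_middle⟩
        obtain ⟨L₁', hL₁'⟩ : ∃ L₁', L'.Perm (u' :: L₁') := by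
          obtain ⟨l₁, l₂, rfl⟩ := List.append_of_mem hu'
          exact ⟨l₁ ++ l₂, List.perm_middle⟩
        have p1 : (itm b L).Perm ((b, u₀) :: itm b L₁) := by
          have := hL₁.map (fun u => (b, u))
          exact this
        have p2 : (itm b L').Perm ((b, u') :: itm b L₁') := by
          have := hL₁'.map (fun u => (b, u))
          exact this
        have s1 : (mk ((b, u₀) :: itm b L₁) X).sz ≤ M := by
          rw [sz_mk] at hs ⊢
          rwa [← (p1.map ps).sum_eq]
        have s2 : (mk ((b, u') :: itm b L₁') X').sz ≤ M := by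
          rw [sz_mk] at hs' ⊢
          rwa [← (p2.map ps).sum_eq]
        have l1 := hL₁.length_eq
        have l2 := hL₁'.length_eq
        rw [List.length_cons] at l1 l2
        have a0 := hL u₀ hu₀
        have a1 := hL' u' hu'
        have hsum' : psum b L₁ = psum b L₁' := by
          rw [psum_perm hL₁, psum_perm hL₁', psum_cons, psum_cons, hval] at hsum
          omega
        have mid : R (mk ((b, u₀) :: itm b L₁) X) (mk ((b, u') :: itm b L₁') X') := by
          rw [mk_cons] at s1 s2 ⊢
          rw [mk_cons]
          refine hR.cong _ _ _ _ _ s1 s2 (hP u₀ u' a0.1 a1.1 a0.2.1 a1.2.1 (by omega) (by omega)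
            hval.symm) (ih L₁ L₁' (by omega) ?_ ?_ hsum' X X' ?_ ?_ hX)
          · intro u hu
            have := hL u (hL₁.mem_iff.2 (by simp [hu]))
            refine ⟨this.1, this.2.1, by omega⟩
          · intro u hu
            have := hL' u (hL₁'.mem_iff.2 (by simp [hu]))
            refine ⟨this.1, this.2.1, by omega⟩
          · simp only [sz] at s1
            omega
          · simp only [sz] at s2
            omega
        have r1 := R_perm hR p1 hs
        have r2 := hR.symm _ _ hs' s2 (R_perm hR p2 hs')
        exact hR.trans _ _ _ hs s2 hs' (hR.trans _ _ _ hs s1 s2 r1 mid) r2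
      · -- merging
        push Not at hex
        have hgt : ∀ u ∈ L', u₀.val + 1 ≤ u.val := by
          intro u hu
          have h1 := hmin' u hu
          have h2 := hex u hu
          omega
        obtain ⟨F, hF⟩ : ∃ F, F = L.filter (fun u => decide (u.val = u₀.val)) := ⟨_, rfl⟩
        obtain ⟨G, hG⟩ : ∃ G, G = L.filter (fun u => !decide (u.val = u₀.val)) := ⟨_, rfl⟩
        have hperm : L.Perm (F ++ G) := by
          rw [hF, hG]
          exact (List.filter_append_perm _ _).symm
        have hFv : ∀ u ∈ F, u.val = u₀.val := by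
          intro u hu
          rw [hF, List.mem_filter] at hu
          simpa using hu.2
        have hGv : ∀ u ∈ G, u₀.val + 1 ≤ u.val := by
          intro u hu
          rw [hG, List.mem_filter] at hu
          have h1 := hmin u hu.1
          have h2 : u.val ≠ u₀.val := by simpa using hu.2
          omega
        have hF0 : 0 < F.length := by
          apply List.length_pos_of_mem (a := u₀)
          rw [hF, List.mem_filter]
          exact ⟨hu₀, by simp⟩
        have hdvd : bas b ∣ F.length := by
          have h1 : bas b ^ (u₀.val + 1) ∣ psum b F := by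
            have h2 : bas b ^ (u₀.val + 1) ∣ psum b F + psum b G := by
              rw [← psum_append, ← psum_perm hperm, hsum]
              exact dvd_psum hgt
            exact (Nat.dvd_add_left (dvd_psum hGv)).1 h2
          rw [psum_const hFv, pow_succ, mul_comm F.length] at h1
          exact Nat.dvd_of_mul_dvd_mul_left (Nat.pow_pos (by have := one_lt_bas b; omega)) h1
        have hmem : ∀ u ∈ F ++ G, u ∈ L := fun u hu => hperm.mem_iff.2 hu
        have hlen := hperm.length_eq
        rw [List.length_append] at hlen
        cases b with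
        | false =>
          have hF2 : 2 ≤ F.length := Nat.le_of_dvd hF0 hdvd
          obtain ⟨u₁, u₂, F', rfl⟩ : ∃ u₁ u₂ F', F = u₁ :: u₂ :: F' := by
            match F, hF2 with
            | u₁ :: u₂ :: F', _ => exact ⟨u₁, u₂, F', rfl⟩
          have v1 := hFv u₁ (by simp)
          have v2 := hFv u₂ (by simp)
          have m1 := hL u₁ (hmem u₁ (by simp))
          have m2 := hL u₂ (hmem u₂ (by simp))
          have r12 : R u₁ u₂ := hP u₁ u₂ m1.1 m2.1 m1.2.1 m2.2.1 (by omega) (by omega)
            (by rw [v1, v2])
          set K := F' ++ G with hK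
          have p1 : (itm false L).Perm ((false, u₁) :: (false, u₂) :: itm false K) := by
            have := hperm.map (fun u => (false, u))
            exact this
          have s1 : (mk ((false, u₁) :: (false, u₂) :: itm false K) X).sz ≤ M := by
            rw [sz_mk] at hs ⊢
            rwa [← (p1.map ps).sum_eq]
          have s0 : (mk (itm false (S u₁ :: K)) X).sz ≤ M := by
            rw [mk_cons, mk_cons] at s1
            rw [itm_cons, mk_cons]
            simp only [sz] at s1 ⊢
            have := one_le_sz u₂
            omega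
          have lK : K.length + 2 = L.length := by
            rw [hlen, hK, List.length_append]
            simp only [List.length_cons]
            omega
          have step := hR.two u₁ u₂ (mk (itm false K) X) s1 r12
          have rec' := ih (S u₁ :: K) L' (by simp only [List.length_cons]; omega) (by
              intro u hu
              rcases List.mem_cons.1 hu with rfl | hu
              · refine ⟨m1.1, m1.2.1, ?_⟩
                simp only [List.length_cons, sz]
                omega
              · have := hL u (hmem u (by
                  rw [hK] at hu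
                  simp only [List.cons_append, List.mem_cons]
                  exact Or.inr (Or.inr hu)))
                refine ⟨this.1, this.2.1, ?_⟩
                simp only [List.length_cons]
                omega) (by
              intro u hu
              have := hL' u hu
              refine ⟨this.1, this.2.1, ?_⟩
              simp only [List.length_cons]
              omega) (by
              rw [← hsum, psum_perm hperm, psum_cons, List.cons_append, List.cons_append,
                psum_cons, psum_cons, v1, v2, val, v1, pow_succ]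
              simp only [bas]
              ring) X X' s0 hs' hX
          have r1 := R_perm hR p1 hs
          have r2 := hR.symm _ _ s0 s1 step
          exact hR.trans _ _ _ hs s0 hs' (hR.trans _ _ _ hs s1 s0 r1 r2) rec'
        | true =>
          have hF2 : 3 ≤ F.length := Nat.le_of_dvd hF0 hdvd
          obtain ⟨u₁, u₂, u₃, F', rfl⟩ : ∃ u₁ u₂ u₃ F', F = u₁ :: u₂ :: u₃ :: F' := by
            match F, hF2 with
            | u₁ :: u₂ :: u₃ :: F', _ => exact ⟨u₁, u₂, u₃, F', rfl⟩
          have v1 := hFv u₁ (by simp)
          have v2 := hFv u₂ (by simp)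
          have v3 := hFv u₃ (by simp)
          have m1 := hL u₁ (hmem u₁ (by simp))
          have m2 := hL u₂ (hmem u₂ (by simp))
          have m3 := hL u₃ (hmem u₃ (by simp))
          have r12 : R u₁ u₂ := hP u₁ u₂ m1.1 m2.1 m1.2.1 m2.2.1 (by omega) (by omega)
            (by rw [v1, v2])
          have r13 : R u₁ u₃ := hP u₁ u₃ m1.1 m3.1 m1.2.1 m3.2.1 (by omega) (by omega)
            (by rw [v1, v3])
          set K := F' ++ G with hK
          have p1 : (itm true L).Perm
              ((true, u₁) :: (true, u₂) :: (true, u₃) :: itm true K) := by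
            have := hperm.map (fun u => (true, u))
            exact this
          have s1 : (mk ((true, u₁) :: (true, u₂) :: (true, u₃) :: itm true K) X).sz ≤ M := by
            rw [sz_mk] at hs ⊢
            rwa [← (p1.map ps).sum_eq]
          have s0 : (mk (itm true (S u₁ :: K)) X).sz ≤ M := by
            rw [mk_cons, mk_cons, mk_cons] at s1
            rw [itm_cons, mk_cons]
            simp only [sz] at s1 ⊢
            have := one_le_sz u₂
            omega
          have lK : K.length + 3 = L.length := by
            rw [hlen, hK, List.length_append]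
            simp only [List.length_cons]
            omega
          have step := hR.three u₁ u₂ u₃ (mk (itm true K) X) s1 r12 r13
          have rec' := ih (S u₁ :: K) L' (by simp only [List.length_cons]; omega) (by
              intro u hu
              rcases List.mem_cons.1 hu with rfl | hu
              · refine ⟨m1.1, m1.2.1, ?_⟩
                simp only [List.length_cons, sz]
                omega
              · have := hL u (hmem u (by
                  rw [hK] at hu
                  simp only [List.cons_append, List.mem_cons]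
                  exact Or.inr (Or.inr (Or.inr hu))))
                refine ⟨this.1, this.2.1, ?_⟩
                simp only [List.length_cons]
                omega) (by
              intro u hu
              have := hL' u hu
              refine ⟨this.1, this.2.1, ?_⟩
              simp only [List.length_cons]
              omega) (by
              rw [← hsum, psum_perm hperm, psum_cons, List.cons_append, List.cons_append,
                List.cons_append, psum_cons, psum_cons, psum_cons, v1, v2, v3, val, v1, pow_succ]
              simp only [bas]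
              ring) X X' s0 hs' hX
          have r1 := R_perm hR p1 hs
          have r2 := hR.symm _ _ s0 s1 step
          exact hR.trans _ _ _ hs s0 hs' (hR.trans _ _ _ hs s1 s0 r1 r2) rec'
    intro L L' hq hL hL' hsum X X' hs hs' hX
    by_cases hnil : L ++ L' = []
    · rw [List.append_eq_nil_iff] at hnil
      obtain ⟨rfl, rfl⟩ := hnil
      exact hX
    · obtain ⟨u₀, hu₀, hmin⟩ : ∃ u₀ ∈ L ++ L', ∀ u ∈ L ++ L', u₀.val ≤ u.val := by
        obtain ⟨u₀, hu₀⟩ := List.exists_mem_of_ne_nil _ hnil
        classical
        have hw := Set.IsWF.min_mem (s := {x | ∃ u ∈ L ++ L', u.val = x})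
          (Set.IsWF.of_wellFoundedLT _) ⟨u₀.val, u₀, hu₀, rfl⟩
        obtain ⟨u₁, hu₁, hv⟩ := hw
        refine ⟨u₁, hu₁, fun u hu => ?_⟩
        rw [hv]
        exact Set.IsWF.min_le _ _ ⟨u, hu, rfl⟩
      rcases List.mem_append.1 hu₀ with h | h
      · exact main L L' hq hL hL' hsum X X' hs hs' hX u₀ h
          (fun u hu => hmin u (List.mem_append.2 (Or.inl hu)))
          (fun u hu => hmin u (List.mem_append.2 (Or.inr hu)))
      · have hX' : R X' X := by
          refine hR.symm _ _ ?_ ?_ hX
          · rw [sz_mk] at hs
            omega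
          · rw [sz_mk] at hs'
            omega
        refine hR.symm _ _ hs' hs ?_
        refine main L' L (by omega) ?_ ?_ hsum.symm X' X hs' hs hX' u₀ h
          (fun u hu => hmin u (List.mem_append.2 (Or.inr hu)))
          (fun u hu => hmin u (List.mem_append.2 (Or.inl hu)))
        · intro u hu
          have := hL' u hu
          exact ⟨this.1, this.2.1, by omega⟩
        · intro u hu
          have := hL u hu
          exact ⟨this.1, this.2.1, by omega⟩

end merge

end AM21
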